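import Pool.Agent.Y95.Q.K3

set_option autoImplicit false

/-!
# Planes in cubic fourfolds and the discriminant group of the lattice of Hodge classes (helper76)

The classes `h - P` span a subspace of the radical of the form on `A(X) / 2 A(X)`, if all the products
`T.(h - P)` are even.
-/

namespace Pool.Agent.K9h76.CF.Cnf

open Pool.Agent.Y95.Q Pool.Agent.Y95.Q.H4 Finset Module

variable {X : CubicFourfold} {H : H4 X}

/-- a family of classes which is independent modulo two -/
def Ind2 {ι : Type} [Fintype ι] (g : ι → Fin 23 → ℤ) : Prop :=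
  ∀ ε : ι → ℤ, (∃ v, ∑ j, ε j • g j = (2 : ℤ) • v) → ∀ j, Even (ε j)

/-- the number of planes which meet pairwise in points -/
def kap (d : ℕ) : ℕ := if d % 4 = 0 ∧ d ≠ 0 then d + 1 else d

/-- a bound for the dimension of the radical of the form modulo two -/
def Bd (H : H4 X) (d : ℕ) : Prop := ∀ (ι : Type) [Fintype ι] (g : ι → Fin 23 → ℤ), (∀ j, H.IsHodge (g j)) →
  (∀ j T, H.IsHodge T → Even (H.ip T (g j))) → Ind2 g → Fintype.card ι ≤ d

theorem two_pow_dvd (hH : H.IsCohomology) {ι : Type} [Fintype ι] {g : ι → Fin 23 → ℤ}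
    (hgh : ∀ j, Even (H.ip (g j) H.h)) (hi : Ind2 g) (n : ℕ) : ∀ (a : ℤ) (c : ι → ℤ),
      a • H.h + ∑ j, c j • g j = 0 → (2 : ℤ) ^ n ∣ a ∧ ∀ j, (2 : ℤ) ^ n ∣ c j := by
  induction n with
  | zero => intro a c _; simp
  | succ n ih =>
    intro a c h
    have ha : Even a := by
      have h1 := congrArg (fun v => H.ip v H.h) h
      simp only [ip_add_left, ip_sum_left, ip_smul_left, hH.h_self, ip_zero_left] at h1
      have h2 : Even (∑ j, c j * H.ip (g j) H.h) := Finset.even_sum _ fun j _ => (hgh j).mul_left _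
      have h3 : Even (a * 3) := by
        have h4 : a * 3 = -∑ j, c j * H.ip (g j) H.h := by linarith
        rw [h4]
        exact h2.neg
      rcases Int.even_mul.1 h3 with h4 | h4
      · exact h4
      · exact absurd h4 (by decide)
    obtain ⟨a', ha'⟩ := ha
    have hc : ∀ j, Even (c j) := by
      refine hi c ⟨(-a') • H.h, ?_⟩
      rw [ha'] at h
      have h1 : ∑ j, c j • g j = -((a' + a') • H.h) := by
        rw [← add_eq_zero_iff_eq_neg, add_comm]
        exact h
      rw [h1]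
      module
    choose c' hc' using hc
    have h2 : a' • H.h + ∑ j, c' j • g j = 0 := by
      have h3 : (2 : ℤ) • (a' • H.h + ∑ j, c' j • g j) = 0 := by
        rw [← h, smul_add, Finset.smul_sum, ha']
        congr 1
        · module
        · refine Finset.sum_congr rfl fun j _ => ?_
          rw [hc' j]
          module
      exact (smul_eq_zero.1 h3).resolve_left two_ne_zero
    obtain ⟨h4, h5⟩ := ih a' c' h2
    refine ⟨?_, fun j => ?_⟩
    · rw [ha', ← two_mul, pow_succ']
      exact mul_dvd_mul_left 2 h4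
    · rw [hc' j, ← two_mul, pow_succ']
      exact mul_dvd_mul_left 2 (h5 j)

theorem eq_zero_of_two_pow {a : ℤ} (h : ∀ n : ℕ, (2 : ℤ) ^ n ∣ a) : a = 0 := by
  refine Int.eq_zero_of_abs_lt_dvd (h a.natAbs) ?_
  have h1 : a.natAbs < 2 ^ a.natAbs := Nat.lt_two_pow_self
  rw [Int.abs_eq_natAbs]
  exact_mod_cast h1

/-- **The bound for the dimension.** -/
theorem card_le_dd (hH : H.IsCohomology) {ι : Type} [Fintype ι] {g : ι → Fin 23 → ℤ}
    (hg : ∀ j, H.IsHodge (g j)) (hgE : ∀ j T, H.IsHodge T → Even (H.ip T (g j))) (hi : Ind2 g) :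
    Fintype.card ι ≤ min (H.rank - 1) (23 - H.rank) := by
  classical
  have hgh : ∀ j, Even (H.ip (g j) H.h) := fun j => by
    rw [hH.comm]
    exact hgE j _ hH.h_hodge
  rw [le_min_iff]
  constructor
  · -- `h` is independent of the family
    let f : Option ι → H.hodge := fun o => o.elim ⟨H.h, hH.h_hodge⟩ fun j => ⟨g j, hg j⟩
    have hli : LinearIndependent ℤ f := by
      rw [Fintype.linearIndependent_iff]
      intro c hc
      have h1 : c none • H.h + ∑ j, c (some j) • g j = 0 := by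
        have h2 := congrArg (fun v : H.hodge => (v : Fin 23 → ℤ)) hc
        simp only [Fintype.sum_option, f, Option.elim, Submodule.coe_add, Submodule.coe_smul,
          Submodule.coe_sum, Submodule.coe_zero] at h2
        exact h2
      have h3 := fun n => two_pow_dvd hH hgh hi n _ _ h1
      rintro (_ | j)
      · exact eq_zero_of_two_pow fun n => (h3 n).1
      · exact eq_zero_of_two_pow fun n => (h3 n).2 j
    have h4 := hli.fintype_card_le_finrank
    rw [Fintype.card_option, ← H.rank_eq] at h4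
    omega
  · by_contra hcon
    let b := Module.finBasis ℤ H.hodge
    refine hH.count (g := g) (f := fun k => (b k : Fin 23 → ℤ)) ?_ (fun k => (b k).2) ?_ hgE hi
    · rw [Fintype.card_fin, ← H.rank_eq]
      omega
    · exact b.linearIndependent.map' H.hodge.subtype (Submodule.ker_subtype _)

/-! ### products -/

theorem hP_hP (hH : H.IsCohomology) {P Q : Fin 23 → ℤ} (hP : H.IsPl P) (hQ : H.IsPl Q) :
    H.ip (H.h - P) (H.h - Q) = 1 + H.ip P Q := by
  rw [ip_sub_left, ip_sub_right, ip_sub_right, hH.h_self, hH.comm H.h Q, hQ.2.1, hP.2.1]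
  ring

theorem hodge_hP (hH : H.IsCohomology) {P : Fin 23 → ℤ} (hP : H.IsPl P) : H.IsHodge (H.h - P) :=
  H.isHodge_sub hH.h_hodge hP.1

theorem hP_h (hH : H.IsCohomology) {P : Fin 23 → ℤ} (hP : H.IsPl P) : H.ip (H.h - P) H.h = 2 := by
  rw [ip_sub_left, hH.h_self, hP.2.1]
  norm_num

/-- a multiple of the class of a quadric which is divisible by two -/
theorem even_of_half (hH : H.IsCohomology) {P v : Fin 23 → ℤ} (hP : H.IsPl P) {c : ℤ}
    (h : c • (H.h - P) = (2 : ℤ) • v) : Even c := by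
  by_contra hodd
  rw [Int.not_even_iff_odd] at hodd
  obtain ⟨m, hm⟩ := hodd
  set v' := v - m • (H.h - P) with hv'
  have h1 : (2 : ℤ) • v' = H.h - P := by
    rw [hv', smul_sub, ← h, hm]
    module
  have h2 : H.IsHodge v' := by
    refine H.isHodge_of_smul two_ne_zero ?_
    rw [h1]
    exact hodge_hP hH hP
  have h3 : H.ip v' H.h = 1 := by
    have h4 := congrArg (fun v => H.ip v H.h) h1
    simp only [ip_smul_left, hP_h hH hP] at h4
    linarith
  have h4 : H.ip v' v' = 1 := by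
    have h5 : H.ip ((2 : ℤ) • v') ((2 : ℤ) • v') = H.ip (H.h - P) (H.h - P) := by rw [h1]
    rw [ip_smul_left, ip_smul_right, hP_hP hH hP hP, hP.2.2] at h5
    linarith
  exact hH.disc_two v' h2 h3 h4

/-- the products in a family of planes which meet pairwise in points -/
theorem hD_hD (hH : H.IsCohomology) {k : ℕ} {D : Fin k → Fin 23 → ℤ} (hD : ∀ i, H.IsPl (D i))
    (hDD : ∀ i j, i ≠ j → H.ip (D i) (D j) = 1) (i j : Fin k) :
    H.ip (H.h - D i) (H.h - D j) = 2 + if i = j then 2 else 0 := by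
  rw [hP_hP hH (hD i) (hD j)]
  by_cases h : i = j
  · rw [h, (hD j).2.2, if_pos rfl]
    norm_num
  · rw [hDD i j h, if_neg h]
    norm_num

/-- **Parity.** -/
theorem parity (hH : H.IsCohomology) (hE : H.AllEven) {k : ℕ} {D : Fin k → Fin 23 → ℤ}
    (hD : ∀ i, H.IsPl (D i)) (hDD : ∀ i j, i ≠ j → H.ip (D i) (D j) = 1) (hk : k % 4 ≠ 1)
    {w : Fin 23 → ℤ} (hw : H.IsHodge w) (hwD : ∀ i, H.ip w (H.h - D i) = 0) {a b : ℤ}
    (hww : H.ip w w = 4 * a) (hwh : H.ip w H.h = 2 * b) (hab : Even (a - b)) {c : ℤ} {ε : Fin k → ℤ}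
    {v : Fin 23 → ℤ} (hv : c • w + ∑ j, ε j • (H.h - D j) = (2 : ℤ) • v) : ∀ j, Even (ε j) := by
  classical
  set s : ℤ := ∑ j, ε j with hs
  have hsumH : ∀ e : Fin k → ℤ, H.IsHodge (∑ j, e j • (H.h - D j)) := fun e =>
    H.isHodge_sum _ _ fun j _ => H.isHodge_smul _ (hodge_hP hH (hD j))
  have hvH : H.IsHodge v := by
    refine H.isHodge_of_smul two_ne_zero ?_
    rw [← hv]
    exact H.isHodge_add (H.isHodge_smul _ hw) (hsumH ε)
  have e1 : ∀ i, H.ip v (H.h - D i) = s + ε i := by
    intro i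
    have h1 := congrArg (fun v => H.ip v (H.h - D i)) hv
    simp only [ip_add_left, ip_sum_left, ip_smul_left, hwD, hD_hD hH hD hDD, mul_zero, mul_add, mul_ite,
      sum_add_distrib, Finset.sum_ite_eq', Finset.mem_univ, if_true, ← Finset.sum_mul] at h1
    rw [← hs] at h1
    linarith
  have e2 : ∀ i, Even (s + ε i) := fun i => by
    rw [← e1 i]
    exact hE _ (hD i) v hvH
  by_contra hcon
  push Not at hcon
  obtain ⟨j0, hj0⟩ := hcon
  rw [Int.not_even_iff_odd] at hj0
  have hsodd : Odd s := by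
    have h1 := e2 j0
    rw [Int.even_add] at h1
    rw [← Int.not_even_iff_odd] at hj0 ⊢
    exact fun h => hj0 (h1.1 h)
  have hodd : ∀ i, Odd (ε i) := by
    intro i
    have h1 := e2 i
    rw [Int.even_add] at h1
    rw [← Int.not_even_iff_odd] at hsodd ⊢
    exact fun h => hsodd (h1.2 h)
  choose d hd using hodd
  have hsk : s = 2 * ∑ i, d i + k := by
    rw [hs]
    simp only [hd, sum_add_distrib, ← mul_sum, sum_const, card_univ, Fintype.card_fin, nsmul_eq_mul, mul_one]
  have hk3 : k % 4 = 3 := by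
    obtain ⟨t, ht⟩ := hsodd
    omega
  -- reduce the coefficient of `w`
  obtain ⟨c', r, hc, hr⟩ : ∃ c' r : ℤ, c = 2 * c' + r ∧ (r = 0 ∨ r = 1) :=
    ⟨c / 2, c % 2, by omega, by omega⟩
  set v' := v - c' • w - ∑ i, d i • (H.h - D i) with hv'
  have h2v : (2 : ℤ) • v' = r • w + ∑ i, (H.h - D i) := by
    have h1 : ∑ j, ε j • (H.h - D j) = (2 : ℤ) • ∑ i, d i • (H.h - D i) + ∑ i, (H.h - D i) := by
      rw [Finset.smul_sum, ← Finset.sum_add_distrib]
      refine Finset.sum_congr rfl fun i _ => ?_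
      rw [hd i]
      module
    rw [hv', smul_sub, smul_sub, ← hv, h1, hc]
    module
  have hwS : H.ip w (∑ i, (H.h - D i)) = 0 := by
    rw [ip_sum_right]
    simp only [hwD, sum_const_zero]
  have hSS : H.ip (∑ i, (H.h - D i)) (∑ i, (H.h - D i)) = 2 * (k : ℤ) ^ 2 + 2 * k := by
    rw [ip_sum_left]
    simp only [ip_sum_right, hD_hD hH hD hDD, sum_add_distrib, sum_const, card_univ, Fintype.card_fin,
      nsmul_eq_mul, Finset.sum_ite_eq, Finset.mem_univ, if_true]
    ring
  have hSh : H.ip (∑ i, (H.h - D i)) H.h = 2 * k := by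
    rw [ip_sum_left]
    simp only [hP_h hH (hD _), sum_const, card_univ, Fintype.card_fin, nsmul_eq_mul]
    ring
  have n1 : 4 * H.ip v' v' = r ^ 2 * (4 * a) + (2 * (k : ℤ) ^ 2 + 2 * k) := by
    have h1 : H.ip ((2 : ℤ) • v') ((2 : ℤ) • v') = H.ip (r • w + ∑ i, (H.h - D i)) (r • w + ∑ i, (H.h - D i)) := by
      rw [h2v]
    rw [ip_smul_left, ip_smul_right, ip_add_left, ip_add_right, ip_add_right, ip_smul_left, ip_smul_right,
      ip_smul_left, hH.comm (∑ i, (H.h - D i)) (r • w), ip_smul_left, hwS, hSS, hww] at h1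
    linarith
  have n2 : H.ip v' H.h = r * b + k := by
    have h1 := congrArg (fun v => H.ip v H.h) h2v
    simp only [ip_smul_left, ip_add_left, hSh, hwh] at h1
    linarith
  have n3 := hH.char v'
  obtain ⟨m, hm⟩ : ∃ m : ℤ, (k : ℤ) = 4 * m + 3 := ⟨k / 4, by omega⟩
  rw [n2, hm] at n3
  rw [hm] at n1
  have n4 : H.ip v' v' = r ^ 2 * a + (8 * m ^ 2 + 14 * m + 6) := by
    have : 4 * H.ip v' v' = 4 * (r ^ 2 * a + (8 * m ^ 2 + 14 * m + 6)) := by
      rw [n1]
      ring
    linarith
  rw [n4] at n3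
  obtain ⟨q, hq⟩ := hab
  obtain ⟨p, hp⟩ := n3
  rcases hr with rfl | rfl
  · have : 8 * m ^ 2 + 10 * m + 3 = p + p := by linarith
    have h5 : m ^ 2 = m * m := sq m
    omega
  · have h6 : a = b + (q + q) := by linarith
    rw [h6] at hp
    have : 8 * m ^ 2 + 10 * m + 3 + (q + q) = p + p := by linarith
    omega

/-! ### families of planes -/

variable {dd : ℕ}

/-- planes which meet pairwise in points -/
theorem pts_le (hH : H.IsCohomology) (hE : H.AllEven) (hBd : Bd H dd) {k : ℕ} {D : Fin k → Fin 23 → ℤ}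
    (hD : ∀ i, H.IsPl (D i)) (hDD : ∀ i j, i ≠ j → H.ip (D i) (D j) = 1) (hk : k % 4 ≠ 1) : k ≤ dd := by
  have h := hBd _ (fun j => H.h - D j) (fun j => hodge_hP hH (hD j))
    (fun j T hT => hE _ (hD j) T hT) (fun ε ⟨v, hv⟩ => by
      refine parity hH hE hD hDD hk (w := 0) (a := 0) (b := 0) H.isHodge_zero (fun i => ?_) ?_ ?_ (by simp)
        (c := 0) (v := v) ?_
      · rw [ip_zero_left]
      · rw [ip_zero_left]; norm_num
      · rw [ip_zero_left]; norm_num
      · rw [smul_zero, zero_add, hv])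
  rwa [Fintype.card_fin] at h

/-- one plane -/
theorem one_le (hH : H.IsCohomology) (hE : H.AllEven) (hBd : Bd H dd) {A : Fin 23 → ℤ} (hA : H.IsPl A) :
    1 ≤ dd := by
  have h := hBd Unit (fun _ => H.h - A) (fun _ => hodge_hP hH hA) (fun _ T hT => hE _ hA T hT) ?_
  · rwa [Fintype.card_unit] at h
  · rintro ε ⟨v, hv⟩ ⟨⟩
    rw [Fintype.sum_unique] at hv
    exact even_of_half hH hA hv

/-- two planes with a common line -/
theorem two_le (hH : H.IsCohomology) (hE : H.AllEven) (hBd : Bd H dd) {A B C : Fin 23 → ℤ}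
    (ht : H.Tri A B C) : 2 ≤ dd := by
  have h := hBd (Option Unit) (fun o => o.elim (H.h - A) fun _ => H.h - B) ?_ ?_ ?_
  · rwa [Fintype.card_option, Fintype.card_unit] at h
  · rintro (_ | _)
    · exact hodge_hP hH ht.a
    · exact hodge_hP hH ht.b
  · rintro (_ | _) T hT
    · exact hE _ ht.a T hT
    · exact hE _ ht.b T hT
  · rintro ε ⟨v, hv⟩
    rw [Fintype.sum_option, Fintype.sum_unique] at hv
    simp only [Option.elim] at hv
    have key : ∀ a b : ℤ, a • (H.h - A) + b • (H.h - B) = (2 : ℤ) • v → Even a ∧ Even b := by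
      intro a b hv
      rcases Int.even_or_odd a with ⟨p, hp⟩ | ⟨p, hp⟩ <;> rcases Int.even_or_odd b with ⟨q, hq⟩ | ⟨q, hq⟩
      · exact ⟨⟨p, hp⟩, ⟨q, hq⟩⟩
      · refine ⟨⟨p, hp⟩, even_of_half hH ht.b (c := b) (v := v - p • (H.h - A)) ?_⟩
        rw [smul_sub (2 : ℤ), ← hv, hp]
        module
      · refine ⟨even_of_half hH ht.a (c := a) (v := v - q • (H.h - B)) ?_, ⟨q, hq⟩⟩
        rw [smul_sub (2 : ℤ), ← hv, hq]
        module
      · exfalso
        have h1 : Even (1 : ℤ) := by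
          refine even_of_half hH ht.c (c := 1) (v := p • (H.h - A) + q • (H.h - B) - v + H.h) ?_
          rw [smul_add (2 : ℤ), smul_sub (2 : ℤ), ← hv, hp, hq]
          rw [← ht.sum]
          module
        exact absurd h1 (by decide)
    have key := key _ _ hv
    rintro (_ | ⟨⟩)
    · exact key.1
    · exact key.2

theorem pts_le_kap (hH : H.IsCohomology) (hE : H.AllEven) (hBd : Bd H dd) {k : ℕ} {D : Fin k → Fin 23 → ℤ}
    (hD : ∀ i, H.IsPl (D i)) (hDD : ∀ i j, i ≠ j → H.ip (D i) (D j) = 1) : k ≤ kap (dd) := by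
  unfold kap
  by_cases hk : k % 4 = 1
  · obtain ⟨k, rfl⟩ : ∃ l, k = l + 1 := ⟨k - 1, by omega⟩
    have h := pts_le hH hE hBd (D := fun i : Fin k => D i.castSucc) (fun i => hD _)
      (fun i j hij => hDD _ _ fun h => hij (Fin.castSucc_injective _ h)) (by omega)
    have h1 := one_le hH hE hBd (hD 0)
    split_ifs <;> omega
  · have h := pts_le hH hE hBd hD hDD hk
    split_ifs <;> omega

/-- planes which meet pairwise in points and a plane in lines -/
theorem star_le (hH : H.IsCohomology) (hE : H.AllEven) (hBd : Bd H dd) {k : ℕ} {A : Fin 23 → ℤ} {D : Fin k → Fin 23 → ℤ}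
    (hA : H.IsPl A) (hAD : ∀ i, H.ip A (D i) = -1)
    (hD : ∀ i, H.IsPl (D i)) (hDD : ∀ i j, i ≠ j → H.ip (D i) (D j) = 1) (hk : k % 4 ≠ 1) : k + 1 ≤ dd := by
  have h := hBd _ (fun o : Option (Fin k) => o.elim (H.h - A) fun j => H.h - D j) ?_ ?_ ?_
  · rwa [Fintype.card_option, Fintype.card_fin] at h
  · rintro (_ | j)
    · exact hodge_hP hH hA
    · exact hodge_hP hH (hD j)
  · rintro (_ | j) T hT
    · exact hE _ hA T hT
    · exact hE _ (hD j) T hT
  · rintro ε ⟨v, hv⟩
    rw [Fintype.sum_option] at hv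
    simp only [Option.elim] at hv
    have h1 : ∀ j, Even (ε (some j)) := by
      refine parity hH hE hD hDD hk (w := H.h - A) (a := 1) (b := 1) (hodge_hP hH hA) (fun i => ?_) ?_ ?_
        (by simp) hv
      · rw [hP_hP hH hA (hD i), hAD]; norm_num
      · rw [hP_hP hH hA hA, hA.2.2]; norm_num
      · rw [hP_h hH hA]; norm_num
    rintro (_ | j)
    · choose d hd using h1
      refine even_of_half hH hA (c := ε none) (v := v - ∑ j, d j • (H.h - D j)) ?_
      have h2 : ∑ j, ε (some j) • (H.h - D j) = (2 : ℤ) • ∑ j, d j • (H.h - D j) := by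
        rw [Finset.smul_sum]
        refine Finset.sum_congr rfl fun i _ => ?_
        rw [hd i]
        module
      rw [h2] at hv
      rw [smul_sub (2 : ℤ), ← hv]
      abel
    · exact h1 j

theorem star_le_kap (hH : H.IsCohomology) (hE : H.AllEven) (hBd : Bd H dd) {k : ℕ} {A : Fin 23 → ℤ} {D : Fin k → Fin 23 → ℤ}
    (hA : H.IsPl A) (hAD : ∀ i, H.ip A (D i) = -1)
    (hD : ∀ i, H.IsPl (D i)) (hDD : ∀ i j, i ≠ j → H.ip (D i) (D j) = 1) : k ≤ kap (dd - 1) := by
  unfold kap
  by_cases hk : k % 4 = 1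
  · obtain ⟨k, rfl⟩ : ∃ l, k = l + 1 := ⟨k - 1, by omega⟩
    have h := star_le hH hE hBd hA (D := fun i : Fin k => D i.castSucc) (fun i => hAD _) (fun i => hD _)
      (fun i j hij => hDD _ _ fun h => hij (Fin.castSucc_injective _ h)) (by omega)
    have h1 := two_le hH hE hBd (hH.tri hA (hD 0) (hAD 0))
    split_ifs <;> omega
  · have h := star_le hH hE hBd hA hAD hD hDD hk
    split_ifs <;> omega

/-- planes which meet pairwise in points and two planes in lines -/
theorem gq_le (hH : H.IsCohomology) (hE : H.AllEven) (hBd : Bd H dd) {k : ℕ} {A x : Fin 23 → ℤ} {D : Fin k → Fin 23 → ℤ}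
    (hA : H.IsPl A) (hx : H.IsPl x) (hAx : H.ip A x = 1) (hAD : ∀ i, H.ip A (D i) = -1)
    (hxD : ∀ i, H.ip x (D i) = -1)
    (hD : ∀ i, H.IsPl (D i)) (hDD : ∀ i j, i ≠ j → H.ip (D i) (D j) = 1) (hk : k % 4 ≠ 1) : k + 2 ≤ dd := by
  have h := hBd _ (fun o : Option (Option (Fin k)) =>
    o.elim (H.h - A) fun o => o.elim (H.h - x) fun j => H.h - D j) ?_ ?_ ?_
  · rwa [Fintype.card_option, Fintype.card_option, Fintype.card_fin] at h
  · rintro (_ | _ | j)
    · exact hodge_hP hH hA
    · exact hodge_hP hH hx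
    · exact hodge_hP hH (hD j)
  · rintro (_ | _ | j) T hT
    · exact hE _ hA T hT
    · exact hE _ hx T hT
    · exact hE _ (hD j) T hT
  · rintro ε ⟨v, hv⟩
    rw [Fintype.sum_option, Fintype.sum_option] at hv
    simp only [Option.elim] at hv
    have hvH : H.IsHodge v := by
      refine H.isHodge_of_smul two_ne_zero ?_
      rw [← hv]
      exact H.isHodge_add (H.isHodge_smul _ (hodge_hP hH hA)) (H.isHodge_add
        (H.isHodge_smul _ (hodge_hP hH hx)) (H.isHodge_sum _ _ fun j _ => H.isHodge_smul _ (hodge_hP hH (hD j))))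
    have z1 : ∀ i, H.ip (H.h - D i) (H.h - A) = 0 := fun i => by
      rw [hP_hP hH (hD i) hA, hH.comm, hAD]; norm_num
    have z2 : ∀ i, H.ip (H.h - D i) (H.h - x) = 0 := fun i => by
      rw [hP_hP hH (hD i) hx, hH.comm, hxD]; norm_num
    have c2 : Even (ε (some none)) := by
      have h1 := congrArg (fun v => H.ip v (H.h - A)) hv
      simp only [ip_add_left, ip_sum_left, ip_smul_left, z1, mul_zero, sum_const_zero, hP_hP hH hA hA,
        hP_hP hH hx hA, hA.2.2, hH.comm x A, hAx] at h1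
      obtain ⟨m, hm⟩ := hE _ hA v hvH
      rw [hm] at h1
      exact ⟨m - ε none, by linarith⟩
    have c1 : Even (ε none) := by
      have h1 := congrArg (fun v => H.ip v (H.h - x)) hv
      simp only [ip_add_left, ip_sum_left, ip_smul_left, z2, mul_zero, sum_const_zero, hP_hP hH hx hx,
        hP_hP hH hA hx, hx.2.2, hAx] at h1
      obtain ⟨m, hm⟩ := hE _ hx v hvH
      rw [hm] at h1
      exact ⟨m - ε (some none), by linarith⟩
    obtain ⟨m1, hm1⟩ := c1
    obtain ⟨m2, hm2⟩ := c2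
    have h1 : ∀ j, Even (ε (some (some j))) := by
      refine parity hH hE hD hDD hk (w := 0) (a := 0) (b := 0) H.isHodge_zero (fun i => ?_) ?_ ?_ (by simp)
        (c := 0) (v := v - m1 • (H.h - A) - m2 • (H.h - x)) ?_
      · rw [ip_zero_left]
      · rw [ip_zero_left]; norm_num
      · rw [ip_zero_left]; norm_num
      · rw [hm1, hm2] at hv
        rw [smul_zero, zero_add, smul_sub, smul_sub, ← hv]
        module
    rintro (_ | _ | j)
    · exact ⟨m1, hm1⟩
    · exact ⟨m2, hm2⟩
    · exact h1 j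

/-- bounds for the number of the planes in three sorts of configurations -/
structure Cfg (H : H4 X) (pa pb pg : ℕ) : Prop where
  pts : ∀ {k : ℕ} {D : Fin k → Fin 23 → ℤ}, (∀ i, H.IsPl (D i)) →
    (∀ i j, i ≠ j → H.ip (D i) (D j) = 1) → k ≤ pa
  star : ∀ {k : ℕ} {A : Fin 23 → ℤ} {D : Fin k → Fin 23 → ℤ}, H.IsPl A → (∀ i, H.ip A (D i) = -1) →
    (∀ i, H.IsPl (D i)) → (∀ i j, i ≠ j → H.ip (D i) (D j) = 1) → 1 ≤ k → k ≤ pb
  gq : ∀ {k : ℕ} {A x : Fin 23 → ℤ} {D : Fin k → Fin 23 → ℤ}, H.IsPl A → H.IsPl x → H.ip A x = 1 →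
    (∀ i, H.ip A (D i) = -1) → (∀ i, H.ip x (D i) = -1) →
    (∀ i, H.IsPl (D i)) → (∀ i j, i ≠ j → H.ip (D i) (D j) = 1) → 2 ≤ k → k ≤ 4 → k ≤ pg + 1

/-- the bounds which depend on the dimension of the radical of the form modulo two -/
theorem cfg_of_bd (hH : H.IsCohomology) (hE : H.AllEven) (hBd : Bd H dd) :
    Cfg H (kap dd) (kap (dd - 1)) (dd - 3) where
  pts hD hDD := pts_le_kap hH hE hBd hD hDD
  star hA hAD hD hDD _ := star_le_kap hH hE hBd hA hAD hD hDD
  gq {k A x D} hA hx hAx hAD hxD hD hDD h2 h4 := by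
    have h := gq_le hH hE hBd hA hx hAx hAD hxD hD hDD (by omega)
    omega

variable {pa pb pg : ℕ}

/-! ### the configuration -/

open Classical in
/-- the members of a class which meet a given plane of another class in a line -/
theorem cls_half (hH : H.IsCohomology) (hE : H.AllEven) {S : Finset (Fin 23 → ℤ)}
    {A B C x : Fin 23 → ℤ} (hS : ∀ v, v ∈ S ↔ H.IsPl v) (ht : H.Tri A B C) (hx : H.InCls A B C x) :
    (H.cls S B C A).card = 2 * ((H.cls S B C A).filter fun y => H.ip x y = -1).card := by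
  rw [← card_filter_add_card_filter_not (s := H.cls S B C A) (fun y => H.ip x y = -1), two_mul]
  congr 1
  have hxB := (InCls.other hH hE ht hx).1
  have hflip : ∀ y, H.ip x (H.h - B - y) = -H.ip x y := by
    intro y
    rw [ip_third hx.1, hxB]
    ring
  refine (card_bij (fun y _ => H.h - B - y) ?_ ?_ ?_).symm
  · intro y hy
    rw [mem_filter, mem_cls hS] at hy ⊢
    refine ⟨hy.1.res hH (ht.rot hH), ?_⟩
    rw [hflip, hy.2]
    norm_num
  · intro y _ y' _ h
    have h' : y = y' := by linear_combination -h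
    exact h'
  · intro y hy
    rw [mem_filter, mem_cls hS] at hy
    have h1 : H.ip x y = 1 ∨ H.ip x y = -1 := by
      refine hH.pm hE hx.1 hy.1.1 ?_
      rintro rfl
      have h2 := hy.1.2.2.2
      rw [hxB] at h2
      norm_num at h2
    refine ⟨H.h - B - y, ?_, by abel⟩
    rw [mem_filter, mem_cls hS]
    refine ⟨hy.1.res hH (ht.rot hH), ?_⟩
    rw [hflip]
    rcases h1 with h1 | h1
    · rw [h1]
    · exact absurd h1 hy.2

open Classical in
/-- two planes which meet in a point: the planes which meet both of them in lines -/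
theorem common (hH : H.IsCohomology) (hE : H.AllEven) (hC : Cfg H pa pb pg) {S : Finset (Fin 23 → ℤ)}
    {A B C x : Fin 23 → ℤ} (hS : ∀ v, v ∈ S ↔ H.IsPl v) (ht : H.Tri A B C) (hx : H.InCls A B C x)
    {n : ℕ} (hn : ((H.cls S B C A).filter fun y => H.ip x y = -1).card = n) :
    n = 0 ∨ (n = 1 ∧ 1 ≤ pg) ∨ (n = 2 ∧ 2 ≤ pg) ∨ (n = 4 ∧ 3 ≤ pg) := by
  set F := (H.cls S B C A).filter fun y => H.ip x y = -1 with hF
  have hhalf := cls_half hH hE hS ht hx
  rw [← hF, hn] at hhalf
  obtain ⟨xB, xC⟩ := InCls.other hH hE ht hx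
  have hFm : ∀ y, y ∈ F ↔ H.InCls B C A y ∧ H.ip x y = -1 := fun y => by
    rw [hF, mem_filter, mem_cls hS]
  -- the members of `F` meet pairwise in points
  have hFF : ∀ y ∈ F, ∀ z ∈ F, y ≠ z → H.ip y z = 1 := by
    intro y hy z hz hne
    rw [hFm] at hy hz
    refine InCls.pair hH hE (ht.rot hH) hy.1 hz.1 hne ?_
    intro h
    have h1 : H.ip x z = 1 := by
      rw [h, ip_third hx.1, xB, hy.2]
      norm_num
    rw [hz.2] at h1
    norm_num at h1
  have hFA : ∀ y ∈ F, H.ip A y = 1 := fun y hy => by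
    rw [hFm] at hy
    rw [hH.comm]
    exact (InCls.other hH hE (ht.rot hH) hy.1).2
  have hFB : ∀ y ∈ F, H.ip B y = -1 := fun y hy => by
    rw [hFm] at hy
    rw [hH.comm]
    exact hy.1.2.2.2
  -- families
  have hfam : ∀ m : ℕ, 1 ≤ m → m ≤ n → m ≤ 3 → m + 1 ≤ pg + 1 := by
    intro m hm1 hm hm3
    obtain ⟨e⟩ : Nonempty (Fin m ↪ F) := by
      refine Function.Embedding.nonempty_of_card_le ?_
      rw [Fintype.card_fin, Fintype.card_coe, hn]
      exact hm
    refine hC.gq (k := m + 1) (A := B) (x := x) (D := Fin.cons A fun j => (e j : Fin 23 → ℤ)) ht.b hx.1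
      ((hH.comm _ _).trans xB) ?_ ?_ ?_ ?_ (by omega) (by omega)
    · intro j
      refine Fin.cases ?_ (fun i => ?_) j
      · exact (hH.comm _ _).trans ht.ab
      · exact hFB _ (e i).2
    · intro j
      refine Fin.cases ?_ (fun i => ?_) j
      · exact hx.2.2.2
      · exact ((hFm _).1 (e i).2).2
    · intro j
      refine Fin.cases ?_ (fun i => ?_) j
      · exact ht.a
      · exact ((hFm _).1 (e i).2).1.1
    · intro i j
      refine Fin.cases ?_ (fun i => ?_) i
      · refine Fin.cases ?_ (fun j => ?_) j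
        · intro h
          exact absurd rfl h
        · intro _
          exact hFA _ (e j).2
      · refine Fin.cases ?_ (fun j => ?_) j
        · intro _
          exact (hH.comm _ _).trans (hFA _ (e i).2)
        · intro h
          exact hFF _ (e i).2 _ (e j).2 fun h' => h (by rw [e.injective (Subtype.ext h')])
  -- at most four
  have h4 : n ≤ 4 := by
    by_contra hcon
    have h5 : 10 ≤ (H.cls S B A C).card := by
      have e1 : H.cls S B A C = H.cls S B C A := by
        ext y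
        rw [mem_cls hS, mem_cls hS]
        exact ⟨fun h => h.swap, fun h => h.swap⟩
      rw [e1, hhalf]
      omega
    have h6 := cls_ten hH hE hS (((ht.rot hH).swap hH)) h5
    rw [card_eq_zero, eq_empty_iff_forall_notMem] at h6
    exact h6 x ((mem_cls hS).2 hx.swap)
  -- not three
  have h3 : n ≠ 3 := by
    intro h3
    rw [h3] at hn
    obtain ⟨y1, y2, y3, h12, h13, h23, hF3⟩ := card_eq_three.1 hn
    have m1 : y1 ∈ F := by rw [hF3]; simp
    have m2 : y2 ∈ F := by rw [hF3]; simp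
    have m3 : y3 ∈ F := by rw [hF3]; simp
    have p12 := hFF _ m1 _ m2 h12
    have p13 := hFF _ m1 _ m3 h13
    have p23 := hFF _ m2 _ m3 h23
    have pA1 := hFA _ m1
    have pA2 := hFA _ m2
    have pA3 := hFA _ m3
    have pB1 := hFB _ m1
    have pB2 := hFB _ m2
    have pB3 := hFB _ m3
    have px1 := ((hFm _).1 m1).2
    have px2 := ((hFm _).1 m2).2
    have px3 := ((hFm _).1 m3).2
    have q1 := ((hFm _).1 m1).1.1
    have q2 := ((hFm _).1 m2).1.1
    have q3 := ((hFm _).1 m3).1.1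
    have pxA := hx.2.2.2
    have pAx : H.ip A x = -1 := (hH.comm _ _).trans pxA
    have pBx : H.ip B x = 1 := (hH.comm _ _).trans xB
    have pAB := ht.ab
    have pBA : H.ip B A = -1 := (hH.comm _ _).trans pAB
    have p1A : H.ip y1 A = 1 := (hH.comm _ _).trans pA1
    have p2A : H.ip y2 A = 1 := (hH.comm _ _).trans pA2
    have p3A : H.ip y3 A = 1 := (hH.comm _ _).trans pA3
    have p1B : H.ip y1 B = -1 := (hH.comm _ _).trans pB1
    have p2B : H.ip y2 B = -1 := (hH.comm _ _).trans pB2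
    have p3B : H.ip y3 B = -1 := (hH.comm _ _).trans pB3
    have p1x : H.ip y1 x = -1 := (hH.comm _ _).trans px1
    have p2x : H.ip y2 x = -1 := (hH.comm _ _).trans px2
    have p3x : H.ip y3 x = -1 := (hH.comm _ _).trans px3
    have p21 : H.ip y2 y1 = 1 := (hH.comm _ _).trans p12
    have p31 : H.ip y3 y1 = 1 := (hH.comm _ _).trans p13
    have p32 : H.ip y3 y2 = 1 := (hH.comm _ _).trans p23
    -- the planes `h - B - A`, `h - x - y1`, and so on
    have t0 := hH.third ht.b ht.a pBA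
    have t1 := hH.third hx.1 q1 px1
    have t2 := hH.third ht.b q2 pB2
    have t3 := hH.third hx.1 q3 px3
    have c01 : H.ip (H.h - B - A) (H.h - x - y1) = -1 := by
      simp only [ip_sub_left, ip_sub_right, hH.h_self, hH.comm H.h x, hH.comm H.h y1, hx.1.2.1, q1.2.1,
        ht.b.2.1, ht.a.2.1, pBx, pAx, pB1, pA1]
      norm_num
    have c23 : H.ip (H.h - B - y2) (H.h - x - y3) = -1 := by
      simp only [ip_sub_left, ip_sub_right, hH.h_self, hH.comm H.h x, hH.comm H.h y3, hx.1.2.1, q3.2.1,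
        ht.b.2.1, q2.2.1, pBx, p2x, pB3, p23]
      norm_num
    have u1 := hH.third t0 t1 c01
    have u2 := hH.third t2 t3 c23
    have cu : H.ip (H.h - (H.h - B - A) - (H.h - x - y1)) (H.h - (H.h - B - y2) - (H.h - x - y3)) = -1 := by
      simp only [ip_sub_left, ip_sub_right, hH.h_self, hH.comm H.h x, hH.comm H.h y2,
        hH.comm H.h y3, hH.comm H.h B, hx.1.2.1, q1.2.1, q2.2.1, q3.2.1,
        ht.b.2.1, ht.a.2.1, ht.b.2.2, hx.1.2.2, pBx, pAx, xB, pA2, pA3, pB2, pB3, px2, px3,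
        p1B, p1x, p12, p13, pAB]
      norm_num
    have hs := hH.third u1 u2 cu
    set s := H.h - (H.h - (H.h - B - A) - (H.h - x - y1)) - (H.h - (H.h - B - y2) - (H.h - x - y3)) with hsdef
    have sB : H.ip s B = -1 := by
      rw [hsdef]
      simp only [ip_sub_left, hH.comm H.h B, ht.b.2.1, ht.b.2.2, pAB, xB, p1B, p2B, p3B]
      norm_num
    have xs : H.ip x s = -1 := by
      rw [hsdef]
      simp only [ip_sub_right, hx.1.2.1, hx.1.2.2, pxA, xB, px1, px2, px3]
      norm_num
    have As : H.ip A s = 1 := by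
      rw [hsdef]
      simp only [ip_sub_right, ht.a.2.1, ht.a.2.2, pAx, pAB, pA1, pA2, pA3]
      norm_num
    have sy1 : H.ip y1 s = 1 := by
      rw [hsdef]
      simp only [ip_sub_right, q1.2.1, q1.2.2, p1A, p1B, p1x, p12, p13]
      norm_num
    have sy2 : H.ip y2 s = 1 := by
      rw [hsdef]
      simp only [ip_sub_right, q2.2.1, q2.2.2, p2A, p2B, p2x, p21, p23]
      norm_num
    have sy3 : H.ip y3 s = 1 := by
      rw [hsdef]
      simp only [ip_sub_right, q3.2.1, q3.2.2, p3A, p3B, p3x, p31, p32]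
      norm_num
    have hsF : s ∈ F := by
      rw [hFm]
      refine ⟨⟨hs, ?_, ?_, sB⟩, xs⟩
      · intro h
        rw [h, xC] at xs
        norm_num at xs
      · intro h
        rw [h, ht.a.2.2] at As
        norm_num at As
    rw [hF3] at hsF
    simp only [mem_insert, mem_singleton] at hsF
    rcases hsF with h | h | h
    · rw [h, q1.2.2] at sy1
      norm_num at sy1
    · rw [h, q2.2.2] at sy2
      norm_num at sy2
    · rw [h, q3.2.2] at sy3
      norm_num at sy3
  have f1 := hfam 1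
  have f2 := hfam 2
  have f3 := hfam 3
  omega

/-- the bound for the lines through a plane -/
theorem cls_star (hH : H.IsCohomology) (hE : H.AllEven) (hC : Cfg H pa pb pg) {S : Finset (Fin 23 → ℤ)}
    {A B C : Fin 23 → ℤ} (hS : ∀ x, x ∈ H.cls S A B C ↔ H.InCls A B C x) (ht : H.Tri A B C) {k : ℕ}
    (hk : 2 * k ≤ (H.cls S A B C).card) : k + 1 ≤ pb := by
  obtain ⟨D, h1, h2⟩ := exists_indep_cls hH hE hS ht k hk
  have hB : ∀ i, H.ip (D i) B = 1 := fun i => (InCls.other hH hE ht (h1 i)).1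
  refine hC.star (k := k + 1) (A := A) (D := Fin.cons B D) ht.a ?_ ?_ ?_ (by omega)
  · intro j
    refine Fin.cases ?_ (fun i => ?_) j
    · exact ht.ab
    · exact (hH.comm _ _).trans (h1 i).2.2.2
  · intro j
    refine Fin.cases ?_ (fun i => ?_) j
    · exact ht.b
    · exact (h1 i).1
  · intro i j
    refine Fin.cases ?_ (fun i => ?_) i
    · refine Fin.cases ?_ (fun j => ?_) j
      · intro h
        exact absurd rfl h
      · intro _
        exact (hH.comm _ _).trans (hB j)
    · refine Fin.cases ?_ (fun j => ?_) j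
      · intro _
        exact hB i
      · intro h
        exact h2 i j fun h' => h (by rw [h'])

/-- **The number of the planes.** -/
theorem card_table (hH : H.IsCohomology) (hE : H.AllEven) (hC : Cfg H pa pb pg) {S : Finset (Fin 23 → ℤ)}
    (hS : ∀ v, v ∈ S ↔ H.IsPl v) : S.card ≤ pa ∨
      (∃ k, 1 ≤ k ∧ k ≤ pb ∧ S.card = 1 + 2 * k) ∨ (S.card = 9 ∧ 1 ≤ pg) ∨
      (S.card = 15 ∧ 2 ≤ pg) ∨ (S.card = 27 ∧ 3 ≤ pg) := by
  classical
  by_cases hedge : ∃ P ∈ S, ∃ Q ∈ S, H.ip P Q = -1
  · right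
    obtain ⟨P, hP, Q, hQ, hPQ⟩ := hedge
    rw [hS] at hP hQ
    have ht := hH.tri hP hQ hPQ
    generalize H.h - P - Q = R at ht
    have t2 := ht.rot hH
    have t3 := t2.rot hH
    have hc := card_decomp hH hE hS ht
    have key : ∀ {A B C : Fin 23 → ℤ}, H.Tri A B C → (H.cls S A B C).card ≠ 0 →
        (H.cls S B C A).card = (H.cls S C A B).card ∧
        ((H.cls S B C A).card = 0 ∨ ((H.cls S B C A).card = 2 ∧ 1 ≤ pg) ∨
          ((H.cls S B C A).card = 4 ∧ 2 ≤ pg) ∨ ((H.cls S B C A).card = 8 ∧ 3 ≤ pg)) := by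
      intro A B C t h
      obtain ⟨x, hx⟩ := card_pos.1 (Nat.pos_of_ne_zero h)
      have hx' := (mem_cls hS).1 hx
      refine ⟨cls_card_eq hH hE hS t hx', ?_⟩
      have h1 := cls_half hH hE hS t hx'
      have h2 := common hH hE hC hS t hx' rfl
      omega
    have k1 := key ht
    have k2 := key t2
    have k3 := key t3
    obtain ⟨a, ha⟩ := cls_even hH (fun x => mem_cls hS) ht
    obtain ⟨b, hb⟩ := cls_even hH (fun x => mem_cls hS) t2
    obtain ⟨c, hc'⟩ := cls_even hH (fun x => mem_cls hS) t3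
    have s1 := cls_star hH hE hC (fun x => mem_cls hS) ht (k := a) (by omega)
    have s2 := cls_star hH hE hC (fun x => mem_cls hS) t2 (k := b) (by omega)
    have s3 := cls_star hH hE hC (fun x => mem_cls hS) t3 (k := c) (by omega)
    by_cases hstar : (a = 0 ∧ b = 0) ∨ (a = 0 ∧ c = 0) ∨ (b = 0 ∧ c = 0)
    · left
      refine ⟨a + b + c + 1, by omega, ?_, ?_⟩ <;> omega
    · right
      omega
  · left
    push Not at hedge
    let e : Fin S.card ≃ S := S.equivFin.symm
    refine hC.pts (D := fun i => (e i : Fin 23 → ℤ)) (fun i => (hS _).1 (e i).2) fun i j hij => ?_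
    rcases hH.pm hE ((hS _).1 (e i).2) ((hS _).1 (e j).2) (fun h => hij (e.injective (Subtype.ext h))) with h | h
    · exact h
    · exact absurd h (hedge _ (e i).2 _ (e j).2)

/-- the planes which meet a given plane in a line -/
theorem adj_le (hH : H.IsCohomology) (hE : H.AllEven) (hC : Cfg H pa pb pg) {A : Fin 23 → ℤ}
    (hA : H.IsPl A) {S : Finset (Fin 23 → ℤ)}
    (hS : ∀ v, v ∈ S ↔ H.IsPl v ∧ H.ip A v = -1) : S.card ≤ 2 * pb := by
  classical
  rcases S.eq_empty_or_nonempty with h0 | ⟨B, hB⟩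
  · rw [h0, card_empty]
    omega
  have hB' := (hS B).1 hB
  have ht := hH.tri hA hB'.1 hB'.2
  generalize H.h - A - B = C at ht
  have h1 : ∀ x, x ∈ H.cls S A B C ↔ H.InCls A B C x := by
    intro x
    unfold cls
    rw [mem_filter, hS]
    exact ⟨fun h => h.2, fun h => ⟨⟨h.1, (hH.comm _ _).trans h.2.2.2⟩, h⟩⟩
  obtain ⟨a, ha⟩ := cls_even hH h1 ht
  have h2 := cls_star hH hE hC h1 ht (k := a) (by omega)
  have h3 : S ⊆ {B, C} ∪ H.cls S A B C := by
    intro x hx
    rw [mem_union, h1]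
    have hx' := (hS x).1 hx
    by_cases hxB : x = B
    · exact Or.inl (by simp [hxB])
    by_cases hxC : x = C
    · exact Or.inl (by simp [hxC])
    exact Or.inr ⟨hx'.1, hxB, hxC, (hH.comm _ _).trans hx'.2⟩
  have h4 := card_le_card h3
  have h5 := card_union_le {B, C} (H.cls S A B C)
  have h6 : ({B, C} : Finset (Fin 23 → ℤ)).card ≤ 2 := card_le_two
  omega

/-- the set of all planes, if all Hodge classes are even -/
theorem exists_planes (hH : H.IsCohomology) (hE : H.AllEven) :
    ∃ S : Finset (Fin 23 → ℤ), ∀ v, v ∈ S ↔ H.IsPl v := by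
  have hfin : {v | H.IsPl v}.Finite := by
    by_contra hinf
    obtain ⟨t, ht, hcard⟩ := Set.Infinite.exists_subset_card_eq hinf (2 ^ (23 - H.rank))
    have h1 := hH.card_rank hE (S := t) fun v hv => ht hv
    omega
  exact ⟨hfin.toFinset, fun v => by rw [Set.Finite.mem_toFinset, Set.mem_ofPred_eq]⟩

/-- the planes which meet two planes in lines -/
theorem common_planes (hH : H.IsCohomology) (hE : H.AllEven) (hC : Cfg H pa pb pg) {P Q : Fin 23 → ℤ} (hP : H.IsPl P)
    (hQ : H.IsPl Q) (hPQ : H.ip P Q = 1) {M : Finset (Fin 23 → ℤ)}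
    (hM : ∀ v, v ∈ M ↔ H.IsPl v ∧ H.ip P v = -1 ∧ H.ip Q v = -1) :
    M.card ≤ 1 ∨ (M.card = 2 ∧ 1 ≤ pg) ∨ (M.card = 3 ∧ 2 ≤ pg) ∨ (M.card = 5 ∧ 3 ≤ pg) := by
  classical
  obtain ⟨S, hS⟩ := exists_planes hH hE
  rcases M.eq_empty_or_nonempty with h0 | ⟨A, hA⟩
  · left
    rw [h0, card_empty]
    omega
  obtain ⟨hA1, hPA, hQA⟩ := (hM A).1 hA
  have ht := hH.tri hA1 hP ((hH.comm _ _).trans hPA)
  generalize H.h - A - P = C at ht
  have hQP : H.ip Q P = 1 := (hH.comm _ _).trans hPQ
  have hx : H.InCls A P C Q := by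
    refine ⟨hQ, ?_, ?_, hQA⟩
    · intro h
      rw [h, hP.2.2] at hPQ
      norm_num at hPQ
    · intro h
      have h1 := ht.bc
      rw [← h, hPQ] at h1
      norm_num at h1
  obtain ⟨-, xC⟩ := InCls.other hH hE ht hx
  have h1 := common hH hE hC hS ht hx rfl
  have hdec : M = insert A ((H.cls S P C A).filter fun y => H.ip Q y = -1) := by
    ext y
    rw [hM, mem_insert, mem_filter, mem_cls hS]
    constructor
    · rintro ⟨y1, y2, y3⟩
      by_cases hyA : y = A
      · exact Or.inl hyA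
      refine Or.inr ⟨⟨y1, ?_, hyA, (hH.comm _ _).trans y2⟩, y3⟩
      intro h
      rw [h, xC] at y3
      norm_num at y3
    · rintro (rfl | ⟨y1, y3⟩)
      · exact ⟨hA1, hPA, hQA⟩
      · exact ⟨y1.1, (hH.comm _ _).trans y1.2.2.2, y3⟩
  have hcard : M.card = ((H.cls S P C A).filter fun y => H.ip Q y = -1).card + 1 := by
    rw [hdec, card_insert_of_notMem]
    rw [mem_filter, mem_cls hS]
    rintro ⟨h, -⟩
    exact h.2.2.1 rfl
  omega

end Pool.Agent.K9h76.CF.Cnf
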