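import Pool.Agent.K9h76.CF.Conf

set_option autoImplicit false

/-!
# The two-rank of the discriminant group and the determinant (helper76)
-/

namespace Pool.Agent.K9h76.CF.Cnf

open Pool.Agent.Y95.Q Pool.Agent.Y95.Q.H4 Finset Module

/-- a symmetric matrix `G` with vectors `x j` in the kernel modulo two, some of which are orthogonal to all of
them modulo four -/
theorem det_dvd {r : ℕ} {ι : Type} [Fintype ι] (G : Matrix (Fin r) (Fin r) ℤ) (hGs : G.transpose = G)
    (x : ι → Fin r → ℤ) (hx : LinearIndependent (ZMod 2) fun j (i : Fin r) => ((x j i : ℤ) : ZMod 2))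
    (hG : ∀ j i, (2 : ℤ) ∣ ∑ k, G i k * x j k) (s : Finset ι)
    (h4 : ∀ i ∈ s, ∀ j, (4 : ℤ) ∣ ∑ k, x j k * ∑ l, G k l * x i l) :
    (2 : ℤ) ^ (Fintype.card ι + s.card) ∣ G.det := by
  classical
  set xb : ι → Fin r → ZMod 2 := fun j i => ((x j i : ℤ) : ZMod 2) with hxb
  have hs : LinearIndepOn (ZMod 2) id (Set.range xb) := hx.linearIndepOn_id
  let B := Basis.extend hs
  have hfin : Fintype (hs.extend (Set.subset_univ _)) := FiniteDimensional.fintypeBasisIndex B
  have hcard : Fintype.card (hs.extend (Set.subset_univ _)) = r := by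
    rw [← Module.finrank_eq_card_basis B, Module.finrank_fin_fun]
  let e : Fin r ≃ hs.extend (Set.subset_univ _) := (Fintype.equivFinOfCardEq hcard).symm
  let f : Fin r → Fin r → ZMod 2 := fun i => (e i : Fin r → ZMod 2)
  have hf : LinearIndependent (ZMod 2) f := by
    have h1 := B.linearIndependent.comp e e.injective
    have h2 : (B ∘ e) = f := by
      funext i
      change B (e i) = (e i : Fin r → ZMod 2)
      rw [Basis.coe_extend]
    rwa [h2] at h1
  have hp : ∀ j, ∃ i, f i = xb j := by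
    intro j
    have h1 : xb j ∈ hs.extend (Set.subset_univ _) := hs.subset_extend _ ⟨j, rfl⟩
    refine ⟨e.symm ⟨xb j, h1⟩, ?_⟩
    change ((e (e.symm ⟨xb j, h1⟩) : hs.extend (Set.subset_univ _)) : Fin r → ZMod 2) = xb j
    rw [e.apply_symm_apply]
  choose p hp using hp
  have hpi : Function.Injective p := by
    intro j j' h
    apply hx.injective
    change xb j = xb j'
    rw [← hp, ← hp, h]
  -- the lift
  let V : Fin r → Fin r → ℤ := Function.extend p x fun i k => ((f i k).val : ℤ)
  have hVp : ∀ j, V (p j) = x j := fun j => hpi.extend_apply _ _ _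
  have hVc : ∀ i k, ((V i k : ℤ) : ZMod 2) = f i k := by
    intro i k
    by_cases h : ∃ j, p j = i
    · obtain ⟨j, rfl⟩ := h
      rw [hVp, hp]
    · have h1 : V i = fun k => ((f i k).val : ℤ) := Function.extend_apply' _ _ _ h
      rw [h1]
      simp
  let U : Matrix (Fin r) (Fin r) ℤ := Matrix.of V
  have hUdet : ¬ (2 : ℤ) ∣ U.det := by
    intro h
    have h1 : ((U.det : ℤ) : ZMod 2) = 0 := (ZMod.intCast_zmod_eq_zero_iff_dvd _ 2).2 h
    have h2 : ((U.det : ℤ) : ZMod 2) = (U.map (Int.castRingHom (ZMod 2))).det := by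
      rw [← RingHom.mapMatrix_apply, ← RingHom.map_det]
      rfl
    have h3 : U.map (Int.castRingHom (ZMod 2)) = Matrix.of f := by
      ext i k
      simp only [Matrix.map_apply, Matrix.of_apply, U]
      exact hVc i k
    have h4 : IsUnit (Matrix.of f) := by
      rw [← Matrix.linearIndependent_rows_iff_isUnit]
      exact hf
    rw [Matrix.isUnit_iff_isUnit_det] at h4
    rw [h2, h3] at h1
    rw [h1] at h4
    exact not_isUnit_zero h4
  let M : Matrix (Fin r) (Fin r) ℤ := U * (G * U.transpose)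
  have hMs : ∀ a c, M a c = M c a := by
    have h1 : M.transpose = M := by
      change (U * (G * U.transpose)).transpose = U * (G * U.transpose)
      rw [Matrix.transpose_mul, Matrix.transpose_mul, Matrix.transpose_transpose, hGs, Matrix.mul_assoc]
    intro a c
    have h2 := congrFun (congrFun h1 c) a
    rw [Matrix.transpose_apply] at h2
    exact h2
  have hMe : ∀ a c, M a c = ∑ k, V a k * ∑ l, G k l * V c l := by
    intro a c
    simp only [M, Matrix.mul_apply, Matrix.transpose_apply, U, Matrix.of_apply]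
  have hcol : ∀ a j, (2 : ℤ) ∣ M a (p j) := by
    intro a j
    rw [hMe, hVp]
    exact Finset.dvd_sum fun k _ => (hG j k).mul_left _
  have hrow : ∀ c j, (2 : ℤ) ∣ M (p j) c := by
    intro c j
    rw [hMs]
    exact hcol c j
  have hfour : ∀ i ∈ s, ∀ j, (4 : ℤ) ∣ M (p j) (p i) := by
    intro i hi j
    rw [hMe, hVp, hVp]
    exact h4 i hi j
  let ra : Fin r → ℤ := fun i => if i ∈ univ.image p then 2 else 1
  let cb : Fin r → ℤ := fun i => if i ∈ s.image p then 2 else 1
  have hex : ∀ a c, ∃ y, M a c = ra a * y * cb c := by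
    intro a c
    simp only [ra, cb]
    by_cases ha : a ∈ univ.image p <;> by_cases hc : c ∈ s.image p
    · obtain ⟨j, -, rfl⟩ := Finset.mem_image.1 ha
      obtain ⟨i, hi, rfl⟩ := Finset.mem_image.1 hc
      obtain ⟨y, hy⟩ := hfour i hi j
      rw [if_pos ha, if_pos hc]
      exact ⟨y, by rw [hy]; ring⟩
    · obtain ⟨j, -, rfl⟩ := Finset.mem_image.1 ha
      obtain ⟨y, hy⟩ := hrow c j
      rw [if_pos ha, if_neg hc]
      exact ⟨y, by rw [hy]; ring⟩
    · obtain ⟨i, hi, rfl⟩ := Finset.mem_image.1 hc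
      obtain ⟨y, hy⟩ := hcol a i
      rw [if_neg ha, if_pos hc]
      exact ⟨y, by rw [hy]; ring⟩
    · rw [if_neg ha, if_neg hc]
      exact ⟨M a c, by ring⟩
  choose Y hY using hex
  have hYd : M = Matrix.diagonal ra * (Matrix.of Y) * Matrix.diagonal cb := by
    ext a c
    rw [Matrix.mul_diagonal, Matrix.diagonal_mul, Matrix.of_apply]
    exact hY a c
  have hprod1 : ∏ i, ra i = 2 ^ Fintype.card ι := by
    simp only [ra]
    rw [Finset.prod_ite_mem, Finset.univ_inter, Finset.prod_const, Finset.card_image_of_injective _ hpi,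
      Finset.card_univ]
  have hprod2 : ∏ i, cb i = 2 ^ s.card := by
    simp only [cb]
    rw [Finset.prod_ite_mem, Finset.univ_inter, Finset.prod_const, Finset.card_image_of_injective _ hpi]
  have hdet : G.det * (U.det * U.det) = (Matrix.of Y).det * 2 ^ (Fintype.card ι + s.card) := by
    have h1 : M.det = U.det * (G.det * U.det) := by
      change (U * (G * U.transpose)).det = _
      rw [Matrix.det_mul, Matrix.det_mul, Matrix.det_transpose]
    have h2 : M.det = 2 ^ Fintype.card ι * (Matrix.of Y).det * 2 ^ s.card := by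
      rw [hYd, Matrix.det_mul, Matrix.det_mul, Matrix.det_diagonal, Matrix.det_diagonal, hprod1, hprod2]
    rw [pow_add]
    linear_combination h2 - h1
  have hdvd : (2 : ℤ) ^ (Fintype.card ι + s.card) ∣ G.det * (U.det * U.det) :=
    ⟨(Matrix.of Y).det, by rw [hdet]; ring⟩
  refine IsCoprime.dvd_of_dvd_mul_right (IsCoprime.pow_left ?_) hdvd
  have h5 := (Prime.coprime_iff_not_dvd Int.prime_two).2 hUdet
  exact h5.mul_right h5

variable {X : CubicFourfold} {H : H4 X}

/-- the families which are used in the definition of the two-rank -/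
def Fam (H : H4 X) (n : ℕ) : Prop := ∃ g : Fin n → Fin 23 → ℤ, (∀ j, H.IsHodge (g j)) ∧
  (∀ j T, H.IsHodge T → Even (H.ip T (g j))) ∧ Ind2 g

theorem fam_le (hH : H.IsCohomology) {n : ℕ} (h : Fam H n) : n ≤ min (H.rank - 1) (23 - H.rank) := by
  obtain ⟨g, h1, h2, h3⟩ := h
  have := card_le_dd hH h1 h2 h3
  rwa [Fintype.card_fin] at this

theorem fam_bdd (hH : H.IsCohomology) : BddAbove {n | Fam H n} :=
  ⟨min (H.rank - 1) (23 - H.rank), fun _ h => fam_le hH h⟩

theorem fam_zero : Fam H 0 := ⟨fun j => j.elim0, fun j => j.elim0, fun j => j.elim0, fun _ _ j => j.elim0⟩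

theorem fam_sSup (hH : H.IsCohomology) : Fam H (sSup {n | Fam H n}) :=
  Nat.sSup_mem ⟨0, fam_zero⟩ (fam_bdd hH)

theorem bd_sSup (hH : H.IsCohomology) : Bd H (sSup {n | Fam H n}) := by
  intro ι _ g h1 h2 h3
  refine le_csSup (fam_bdd hH) ?_
  let e := Fintype.equivFin ι
  refine ⟨fun j => g (e.symm j), fun j => h1 _, fun j => h2 _, ?_⟩
  rintro ε ⟨v, hv⟩ j
  have h4 := h3 (fun i => ε (e i)) ⟨v, by
    rw [← hv]
    refine Fintype.sum_equiv e _ _ fun i => ?_
    simp only [e.symm_apply_apply]⟩ (e.symm j)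
  rwa [e.apply_symm_apply] at h4

theorem Bd.mono {d d' : ℕ} (h : Bd H d) (hd : d ≤ d') : Bd H d' := fun ι _ g h1 h2 h3 =>
  (h ι g h1 h2 h3).trans hd

/-- a bound for the number of the members of a family of classes in the radical of the form modulo two,
where the members which are orthogonal to all members modulo four are counted twice -/
def Bd2 (H : H4 X) (v : ℕ) : Prop := ∀ (ι : Type) [Fintype ι] (g : ι → Fin 23 → ℤ) (s : Finset ι),
  (∀ j, H.IsHodge (g j)) → (∀ j T, H.IsHodge T → Even (H.ip T (g j))) → Ind2 g →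
  (∀ i ∈ s, ∀ j, (4 : ℤ) ∣ H.ip (g j) (g i)) → Fintype.card ι + s.card ≤ v

/-- the determinant of the lattice of the Hodge classes -/
theorem bd2_of_det (hH : H.IsCohomology) {r v : ℕ} {b : Fin r → Fin 23 → ℤ}
    (hb : Submodule.span ℤ (Set.range b) = Submodule.span ℤ {v | H.IsHodge v})
    (hdet : ¬ (2 : ℤ) ^ (v + 1) ∣ (Matrix.of fun i j => H.ip (b i) (b j)).det) : Bd2 H v := by
  classical
  intro ι _ g s h1 h2 h3 h4s
  by_contra hcon
  refine hdet ((pow_dvd_pow 2 (Nat.succ_le_iff.2 (not_le.1 hcon))).trans ?_)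
  have hspan : Submodule.span ℤ {v | H.IsHodge v} = H.hodge := Submodule.span_eq H.hodge
  have hbH : ∀ i, H.IsHodge (b i) := by
    intro i
    have h4 : b i ∈ Submodule.span ℤ {v | H.IsHodge v} := by
      rw [← hb]
      exact Submodule.subset_span ⟨i, rfl⟩
    rw [hspan] at h4
    exact h4
  have hx : ∀ j, ∃ x : Fin r → ℤ, ∑ i, x i • b i = g j := by
    intro j
    have h4 : g j ∈ Submodule.span ℤ (Set.range b) := by
      rw [hb, hspan]
      exact h1 j
    exact (Submodule.mem_span_range_iff_exists_fun ℤ).1 h4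
  choose x hx using hx
  have hbg : ∀ j i, ∑ k, (Matrix.of fun i j => H.ip (b i) (b j)) i k * x j k = H.ip (b i) (g j) := by
    intro j i
    rw [← hx j, ip_sum_right]
    refine Finset.sum_congr rfl fun k _ => ?_
    rw [ip_smul_right, Matrix.of_apply, mul_comm]
  refine det_dvd _ ?_ x ?_ ?_ s ?_
  · ext i j
    rw [Matrix.transpose_apply, Matrix.of_apply, Matrix.of_apply, hH.comm]
  · rw [Fintype.linearIndependent_iff]
    intro c hc
    have h4 : ∀ i, (2 : ℤ) ∣ ∑ j, ((c j).val : ℤ) * x j i := by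
      intro i
      refine (ZMod.intCast_zmod_eq_zero_iff_dvd (∑ j, ((c j).val : ℤ) * x j i) 2).1 ?_
      have h5 := congrFun hc i
      simp only [Finset.sum_apply, Pi.smul_apply, smul_eq_mul, Pi.zero_apply] at h5
      push_cast
      rw [← h5]
      refine Finset.sum_congr rfl fun j _ => ?_
      congr 1
      simp
    choose y hy using h4
    have h6 := h3 (fun j => ((c j).val : ℤ)) ⟨∑ i, y i • b i, by
      rw [Finset.smul_sum]
      have e1 : ∀ j, ((c j).val : ℤ) • g j = ∑ i, (((c j).val : ℤ) * x j i) • b i := by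
        intro j
        rw [← hx j, Finset.smul_sum]
        refine Finset.sum_congr rfl fun i _ => ?_
        rw [smul_smul]
      simp only [e1]
      rw [Finset.sum_comm]
      refine Finset.sum_congr rfl fun i _ => ?_
      rw [← Finset.sum_smul, hy i, smul_smul]⟩
    intro j
    obtain ⟨m, hm⟩ := h6 j
    have h7 : (((c j).val : ℤ) : ZMod 2) = c j := by simp
    rw [← h7, hm]
    push_cast
    have : (m : ZMod 2) + m = 2 * m := by ring
    rw [this, show (2 : ZMod 2) = 0 by decide, zero_mul]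
  · intro j i
    rw [hbg]
    exact (h2 j _ (hbH i)).two_dvd
  · intro i hi j
    have h5 : ∑ k, x j k * ∑ l, (Matrix.of fun i j => H.ip (b i) (b j)) k l * x i l = H.ip (g j) (g i) := by
      rw [← hx j, ip_sum_left]
      refine Finset.sum_congr rfl fun k _ => ?_
      rw [hbg, ip_smul_left]
    rw [h5]
    exact h4s i hi j

/-! ### the bounds for the configurations -/

/-- planes which meet pairwise in points, and further classes -/
theorem bd2_conf (hH : H.IsCohomology) (hE : H.AllEven) {v : ℕ} (hBd : Bd2 H v) {k : ℕ}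
    {D : Fin k → Fin 23 → ℤ} (hD : ∀ i, H.IsPl (D i)) (hDD : ∀ i j, i ≠ j → H.ip (D i) (D j) = 1)
    {α : Type} [Fintype α] {g : α → Fin 23 → ℤ} (hg : ∀ a, H.IsHodge (g a))
    (hgE : ∀ a T, H.IsHodge T → Even (H.ip T (g a))) (hgD : ∀ a j, H.ip (H.h - D j) (g a) = 0)
    (t : Finset α) (ht : ∀ i ∈ t, ∀ j, (4 : ℤ) ∣ H.ip (g j) (g i))
    (hi : Ind2 (Sum.elim g fun j => H.h - D j)) : Fintype.card α + k + t.card + k % 2 ≤ v := by
  classical
  rcases Nat.even_or_odd k with hk | hk
  · have h := hBd (α ⊕ Fin k) (Sum.elim g fun j => H.h - D j) (t.disjSum ∅) ?_ ?_ hi ?_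
    · rw [Fintype.card_sum, Fintype.card_fin, Finset.card_disjSum, Finset.card_empty] at h
      rw [Nat.even_iff] at hk
      omega
    · rintro (a | j)
      · exact hg a
      · exact hodge_hP hH (hD j)
    · rintro (a | j) T hT
      · exact hgE a T hT
      · exact hE _ (hD j) T hT
    · rintro (i | i) hi (j | j)
      · exact ht i (Finset.inl_mem_disjSum.1 hi) j
      · simp only [Sum.elim_inl, Sum.elim_inr, hgD, dvd_zero]
      · exact absurd (Finset.inr_mem_disjSum.1 hi) (Finset.notMem_empty _)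
      · exact absurd (Finset.inr_mem_disjSum.1 hi) (Finset.notMem_empty _)
  · obtain ⟨l, rfl⟩ : ∃ l, k = l + 1 := ⟨k - 1, by
      obtain ⟨m, hm⟩ := hk
      omega⟩
    have hDS : ∀ j, (4 : ℤ) ∣ H.ip (H.h - D j) (∑ i, (H.h - D i)) := by
      intro j
      rw [ip_sum_right]
      simp only [hD_hD hH hD hDD, sum_add_distrib, sum_const, card_univ, Fintype.card_fin, nsmul_eq_mul,
        Finset.sum_ite_eq, Finset.mem_univ, if_true]
      obtain ⟨m, hm⟩ := hk
      refine ⟨m + 1, ?_⟩
      have hm' : ((l : ℤ) + 1) = 2 * m + 1 := by exact_mod_cast hm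
      push_cast
      linear_combination 2 * hm'
    obtain ⟨G, hG1, hG2, hG3⟩ : ∃ G : α ⊕ Fin (l + 1) → Fin 23 → ℤ, (∀ a, G (Sum.inl a) = g a) ∧
        G (Sum.inr 0) = ∑ i, (H.h - D i) ∧ ∀ j : Fin l, G (Sum.inr j.succ) = H.h - D j.succ := by
      refine ⟨Sum.elim g (Fin.cons (∑ i, (H.h - D i)) fun j : Fin l => H.h - D j.succ), fun a => ?_, ?_,
        fun j => ?_⟩
      · simp only [Sum.elim_inl]
      · simp only [Sum.elim_inr, Fin.cons_zero]
      · simp only [Sum.elim_inr, Fin.cons_succ]
    have h := hBd (α ⊕ Fin (l + 1)) G (t.disjSum {0}) ?_ ?_ ?_ ?_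
    · rw [Fintype.card_sum, Fintype.card_fin, Finset.card_disjSum, Finset.card_singleton] at h
      rw [Nat.odd_iff] at hk
      omega
    · rintro (a | j)
      · rw [hG1]
        exact hg a
      · refine Fin.cases ?_ (fun j => ?_) j
        · rw [hG2]
          exact H.isHodge_sum _ _ fun j _ => hodge_hP hH (hD j)
        · rw [hG3]
          exact hodge_hP hH (hD _)
    · rintro (a | j) T hT
      · rw [hG1]
        exact hgE a T hT
      · refine Fin.cases ?_ (fun j => ?_) j
        · rw [hG2, ip_sum_right]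
          exact Finset.even_sum _ fun j _ => hE _ (hD j) T hT
        · rw [hG3]
          exact hE _ (hD _) T hT
    · rintro ε ⟨w, hw⟩
      have h1 := hi (Sum.elim (fun a => ε (Sum.inl a))
        (Fin.cons (ε (Sum.inr 0)) fun j => ε (Sum.inr 0) + ε (Sum.inr j.succ))) ⟨w, by
          rw [← hw, Fintype.sum_sum_type, Fintype.sum_sum_type]
          congr 1
          · simp only [Sum.elim_inl, hG1]
          · rw [Fin.sum_univ_succ, Fin.sum_univ_succ]
            simp only [Sum.elim_inr, Fin.cons_zero, Fin.cons_succ, hG2, hG3,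
              Fin.sum_univ_succ (fun i => H.h - D i),
              add_smul, sum_add_distrib, smul_add, ← Finset.smul_sum]
            abel⟩
      rintro (a | j)
      · exact h1 (Sum.inl a)
      · have h2 := h1 (Sum.inr 0)
        simp only [Sum.elim_inr, Fin.cons_zero] at h2
        refine Fin.cases ?_ (fun j => ?_) j
        · exact h2
        · have h3 := h1 (Sum.inr j.succ)
          simp only [Sum.elim_inr, Fin.cons_succ] at h3
          exact (Int.even_add.1 h3).1 h2
    · rintro (i | i) hi (j | j)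
      · rw [hG1, hG1]
        exact ht i (Finset.inl_mem_disjSum.1 hi) j
      · refine Fin.cases ?_ (fun j => ?_) j
        · rw [hG1, hG2, ip_sum_left]
          simp only [hgD, sum_const_zero, dvd_zero]
        · rw [hG1, hG3, hgD]
          exact dvd_zero _
      · have h0 := Finset.mem_singleton.1 (Finset.inr_mem_disjSum.1 hi)
        subst h0
        rw [hG1, hG2, ip_sum_right]
        refine Finset.dvd_sum fun i _ => ?_
        rw [hH.comm, hgD]
        exact dvd_zero _
      · have h0 := Finset.mem_singleton.1 (Finset.inr_mem_disjSum.1 hi)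
        subst h0
        refine Fin.cases ?_ (fun j => ?_) j
        · rw [hG2, ip_sum_left]
          exact Finset.dvd_sum fun i _ => hDS i
        · rw [hG2, hG3]
          exact hDS _

/-- one plane -/
theorem bd2_one (hH : H.IsCohomology) (hE : H.AllEven) {v : ℕ} (hBd : Bd2 H v) {A : Fin 23 → ℤ}
    (hA : H.IsPl A) : 2 ≤ v := by
  have h := hBd Unit (fun _ => H.h - A) univ (fun _ => hodge_hP hH hA) (fun _ T hT => hE _ hA T hT) ?_ ?_
  · rwa [Finset.card_univ, Fintype.card_unit] at h
  · rintro ε ⟨v, hv⟩ ⟨⟩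
    rw [Fintype.sum_unique] at hv
    exact even_of_half hH hA hv
  · intro i _ j
    rw [hP_hP hH hA hA, hA.2.2]
    norm_num

/-- two planes with a common line -/
theorem bd2_two (hH : H.IsCohomology) (hE : H.AllEven) {v : ℕ} (hBd : Bd2 H v) {A B C : Fin 23 → ℤ}
    (ht : H.Tri A B C) : 4 ≤ v := by
  have h := hBd Bool (fun o => cond o (H.h - A) (H.h - B)) univ ?_ ?_ ?_ ?_
  · rwa [Finset.card_univ, Fintype.card_bool] at h
  · rintro (_ | _)
    · exact hodge_hP hH ht.b
    · exact hodge_hP hH ht.a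
  · rintro (_ | _) T hT
    · exact hE _ ht.b T hT
    · exact hE _ ht.a T hT
  · rintro ε ⟨v, hv⟩
    rw [Fintype.sum_bool] at hv
    simp only [cond_true, cond_false] at hv
    have key : ∀ a b : ℤ, a • (H.h - A) + b • (H.h - B) = (2 : ℤ) • v → Even a ∧ Even b := by
      intro a b hv
      rcases Int.even_or_odd a with ⟨p, hp⟩ | ⟨p, hp⟩ <;> rcases Int.even_or_odd b with ⟨q, hq⟩ | ⟨q, hq⟩
      · exact ⟨⟨p, hp⟩, ⟨q, hq⟩⟩
      · refine ⟨⟨p, hp⟩, even_of_half hH ht.b (c := b) (v := v - p • (H.h - A)) ?_⟩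
        rw [smul_sub (2 : ℤ), ← hv, hp]
        module
      · refine ⟨even_of_half hH ht.a (c := a) (v := v - q • (H.h - B)) ?_, ⟨q, hq⟩⟩
        rw [smul_sub (2 : ℤ), ← hv, hq]
        module
      · exfalso
        have h1 : Even (1 : ℤ) := by
          refine even_of_half hH ht.c (c := 1) (v := p • (H.h - A) + q • (H.h - B) - v + H.h) ?_
          rw [smul_add (2 : ℤ), smul_sub (2 : ℤ), ← hv, hp, hq]
          rw [← ht.sum]
          module
        exact absurd h1 (by decide)
    have key := key _ _ hv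
    rintro (_ | _)
    · exact key.2
    · exact key.1
  · have e1 : H.ip (H.h - A) (H.h - A) = 4 := by rw [hP_hP hH ht.a ht.a, ht.a.2.2]; norm_num
    have e2 : H.ip (H.h - B) (H.h - B) = 4 := by rw [hP_hP hH ht.b ht.b, ht.b.2.2]; norm_num
    have e3 : H.ip (H.h - A) (H.h - B) = 0 := by rw [hP_hP hH ht.a ht.b, ht.ab]; norm_num
    have e4 : H.ip (H.h - B) (H.h - A) = 0 := by rw [hH.comm, e3]
    rintro (_ | _) - (_ | _)
    · simp only [cond_false, e2, dvd_refl]
    · simp only [cond_false, cond_true, e3, dvd_zero]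
    · simp only [cond_false, cond_true, e4, dvd_zero]
    · simp only [cond_true, e1, dvd_refl]

/-- planes which meet pairwise in points -/
theorem bd2_pts (hH : H.IsCohomology) (hE : H.AllEven) {v : ℕ} (hBd : Bd2 H v) {k : ℕ}
    {D : Fin k → Fin 23 → ℤ} (hD : ∀ i, H.IsPl (D i)) (hDD : ∀ i j, i ≠ j → H.ip (D i) (D j) = 1)
    (hk : k % 4 ≠ 1) : k + k % 2 ≤ v := by
  have h := bd2_conf hH hE hBd hD hDD (α := Empty) (g := fun a => a.elim) (fun a => a.elim)
    (fun a => a.elim) (fun a => a.elim) ∅ (fun a => a.elim) (by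
      rintro ε ⟨w, hw⟩ (a | j)
      · exact a.elim
      · rw [Fintype.sum_sum_type, Fintype.sum_empty, zero_add] at hw
        simp only [Sum.elim_inr] at hw
        exact parity hH hE hD hDD hk (w := 0) (a := 0) (b := 0) H.isHodge_zero
          (fun i => by rw [ip_zero_left]) (by rw [ip_zero_left]; norm_num) (by rw [ip_zero_left]; norm_num)
          (by simp) (c := 0) (ε := fun j => ε (Sum.inr j)) (v := w) (by rw [smul_zero, zero_add, hw]) j)
  simp only [Fintype.card_empty, Finset.card_empty] at h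
  omega

/-- planes which meet pairwise in points and a plane in lines -/
theorem bd2_star (hH : H.IsCohomology) (hE : H.AllEven) {v : ℕ} (hBd : Bd2 H v) {k : ℕ}
    {A : Fin 23 → ℤ} {D : Fin k → Fin 23 → ℤ} (hA : H.IsPl A) (hAD : ∀ i, H.ip A (D i) = -1)
    (hD : ∀ i, H.IsPl (D i)) (hDD : ∀ i j, i ≠ j → H.ip (D i) (D j) = 1)
    (hk : k % 4 ≠ 1) : k + 2 + k % 2 ≤ v := by
  have z1 : ∀ i, H.ip (H.h - A) (H.h - D i) = 0 := fun i => by
    rw [hP_hP hH hA (hD i), hAD]; norm_num
  have h := bd2_conf hH hE hBd hD hDD (α := Unit) (g := fun _ => H.h - A) (fun _ => hodge_hP hH hA)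
    (fun _ T hT => hE _ hA T hT) (fun _ j => by rw [hH.comm, z1]) univ (fun _ _ _ => by
      rw [hP_hP hH hA hA, hA.2.2]; norm_num) (by
      rintro ε ⟨v, hv⟩
      rw [Fintype.sum_sum_type, Fintype.sum_unique] at hv
      simp only [Sum.elim_inr, Sum.elim_inl] at hv
      have h1 : ∀ j, Even (ε (Sum.inr j)) := by
        refine parity hH hE hD hDD hk (w := H.h - A) (a := 1) (b := 1) (hodge_hP hH hA) z1 ?_ ?_
          (by simp) hv
        · rw [hP_hP hH hA hA, hA.2.2]; norm_num
        · rw [hP_h hH hA]; norm_num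
      rintro (⟨⟩ | j)
      · choose d hd using h1
        refine even_of_half hH hA (c := ε (Sum.inl ())) (v := v - ∑ j, d j • (H.h - D j)) ?_
        have h2 : ∑ j, ε (Sum.inr j) • (H.h - D j) = (2 : ℤ) • ∑ j, d j • (H.h - D j) := by
          rw [Finset.smul_sum]
          refine Finset.sum_congr rfl fun i _ => ?_
          rw [hd i]
          module
        rw [h2] at hv
        rw [smul_sub (2 : ℤ), ← hv]
        abel
      · exact h1 j)
  rw [Finset.card_univ, Fintype.card_unit] at h
  omega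

/-- planes which meet pairwise in points and two planes in lines -/
theorem bd2_gq (hH : H.IsCohomology) (hE : H.AllEven) {v : ℕ} (hBd : Bd2 H v) {k : ℕ}
    {A x : Fin 23 → ℤ} {D : Fin k → Fin 23 → ℤ} (hA : H.IsPl A) (hx : H.IsPl x) (hAx : H.ip A x = 1)
    (hAD : ∀ i, H.ip A (D i) = -1) (hxD : ∀ i, H.ip x (D i) = -1)
    (hD : ∀ i, H.IsPl (D i)) (hDD : ∀ i j, i ≠ j → H.ip (D i) (D j) = 1)
    (hk : k % 4 ≠ 1) : k + 2 + k % 2 ≤ v := by
  have z1 : ∀ i, H.ip (H.h - D i) (H.h - A) = 0 := fun i => by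
    rw [hP_hP hH (hD i) hA, hH.comm, hAD]; norm_num
  have z2 : ∀ i, H.ip (H.h - D i) (H.h - x) = 0 := fun i => by
    rw [hP_hP hH (hD i) hx, hH.comm, hxD]; norm_num
  have h := bd2_conf hH hE hBd hD hDD (α := Bool) (g := fun o => cond o (H.h - A) (H.h - x)) (by
      rintro (_ | _)
      · exact hodge_hP hH hx
      · exact hodge_hP hH hA) (by
      rintro (_ | _) T hT
      · exact hE _ hx T hT
      · exact hE _ hA T hT) (by
      rintro (_ | _) j
      · exact z2 j
      · exact z1 j) ∅ (fun i hi => absurd hi (Finset.notMem_empty _)) (by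
      rintro ε ⟨v, hv⟩
      rw [Fintype.sum_sum_type, Fintype.sum_bool] at hv
      simp only [Sum.elim_inr, Sum.elim_inl, cond_true, cond_false] at hv
      have hvH : H.IsHodge v := by
        refine H.isHodge_of_smul two_ne_zero ?_
        rw [← hv]
        exact H.isHodge_add (H.isHodge_add (H.isHodge_smul _ (hodge_hP hH hA))
          (H.isHodge_smul _ (hodge_hP hH hx))) (H.isHodge_sum _ _ fun j _ => H.isHodge_smul _ (hodge_hP hH (hD j)))
      have c2 : Even (ε (Sum.inl false)) := by
        have h1 := congrArg (fun v => H.ip v (H.h - A)) hv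
        simp only [ip_add_left, ip_sum_left, ip_smul_left, z1, mul_zero, sum_const_zero, hP_hP hH hA hA,
          hP_hP hH hx hA, hA.2.2, hH.comm x A, hAx] at h1
        obtain ⟨m, hm⟩ := hE _ hA v hvH
        rw [hm] at h1
        exact ⟨m - ε (Sum.inl true), by linarith⟩
      have c1 : Even (ε (Sum.inl true)) := by
        have h1 := congrArg (fun v => H.ip v (H.h - x)) hv
        simp only [ip_add_left, ip_sum_left, ip_smul_left, z2, mul_zero, sum_const_zero, hP_hP hH hx hx,
          hP_hP hH hA hx, hx.2.2, hAx] at h1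
        obtain ⟨m, hm⟩ := hE _ hx v hvH
        rw [hm] at h1
        exact ⟨m - ε (Sum.inl false), by linarith⟩
      obtain ⟨m1, hm1⟩ := c1
      obtain ⟨m2, hm2⟩ := c2
      have h1 : ∀ j, Even (ε (Sum.inr j)) := by
        refine parity hH hE hD hDD hk (w := 0) (a := 0) (b := 0) H.isHodge_zero (fun i => ?_) ?_ ?_ (by simp)
          (c := 0) (v := v - m1 • (H.h - A) - m2 • (H.h - x)) ?_
        · rw [ip_zero_left]
        · rw [ip_zero_left]; norm_num
        · rw [ip_zero_left]; norm_num
        · rw [hm1, hm2] at hv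
          rw [smul_zero, zero_add, smul_sub, smul_sub, ← hv]
          module
      rintro ((_ | _) | j)
      · exact ⟨m2, hm2⟩
      · exact ⟨m1, hm1⟩
      · exact h1 j)
  rw [Finset.card_empty, Fintype.card_bool] at h
  omega

/-- the bounds which depend on the determinant -/
theorem cfg_of_bd2 (hH : H.IsCohomology) (hE : H.AllEven) {m : ℕ} (hBd : Bd2 H (2 * m + 1)) :
    Cfg H (kap (2 * m)) (kap (2 * m - 2)) (if 3 ≤ m then 3 else if m = 2 then 1 else 0) where
  pts {k D} hD hDD := by
    unfold kap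
    by_cases hk : k % 4 = 1
    · obtain ⟨k, rfl⟩ : ∃ l, k = l + 1 := ⟨k - 1, by omega⟩
      have h := bd2_pts hH hE hBd (D := fun i : Fin k => D i.castSucc) (fun i => hD _)
        (fun i j hij => hDD _ _ fun h => hij (Fin.castSucc_injective _ h)) (by omega)
      have h1 := bd2_one hH hE hBd (hD 0)
      split_ifs <;> omega
    · have h := bd2_pts hH hE hBd hD hDD hk
      split_ifs <;> omega
  star {k A D} hA hAD hD hDD h0 := by
    have h2 : 4 ≤ 2 * m + 1 := bd2_two hH hE hBd (hH.tri hA (hD ⟨0, h0⟩) (hAD ⟨0, h0⟩))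
    unfold kap
    by_cases hk : k % 4 = 1
    · obtain ⟨k, rfl⟩ : ∃ l, k = l + 1 := ⟨k - 1, by omega⟩
      have h := bd2_star hH hE hBd hA (D := fun i : Fin k => D i.castSucc) (fun i => hAD _) (fun i => hD _)
        (fun i j hij => hDD _ _ fun h => hij (Fin.castSucc_injective _ h)) (by omega)
      split_ifs <;> omega
    · have h := bd2_star hH hE hBd hA hAD hD hDD hk
      split_ifs <;> omega
  gq {k A x D} hA hx hAx hAD hxD hD hDD h2 h4 := by
    have h := bd2_gq hH hE hBd hA hx hAx hAD hxD hD hDD (by omega)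
    split_ifs <;> omega

end Pool.Agent.K9h76.CF.Cnf
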