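import Pool.Agent.N801.CF.Main1

set_option autoImplicit false

/-!
# Cubic fourfolds with a plane: rationality from classes of small discriminant (helper76)
-/

namespace Pool.Agent.K9h76.CF

open Pool.Agent.Y95.Q Pool.Agent.Y95.Q.H4 Pool.Agent.N801.CF Pool.Agent.X328.CF Module

variable {X : CubicFourfold} {H : H4 X}

/-- the polar form of one half of the discriminant -/
def bb (H : H4 X) (v w : Fin 23 → ℤ) : ℤ := 3 * H.ip v w - H.ip H.h v * H.ip H.h w

/-- three times the determinant of the intersection matrix of `h`, `P` and `v` -/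
def tdet (H : H4 X) (P v : Fin 23 → ℤ) : ℤ := 8 * H.disc v - bb H P v ^ 2

theorem bb_comm (hH : H.IsCohomology) (v w : Fin 23 → ℤ) : bb H v w = bb H w v := by
  unfold bb
  rw [hH.comm v w]
  ring

theorem bb_add (u v w : Fin 23 → ℤ) : bb H u (v + w) = bb H u v + bb H u w := by
  unfold bb
  rw [ip_add_right, ip_add_right]
  ring

theorem bb_smul (n : ℤ) (u v : Fin 23 → ℤ) : bb H u (n • v) = n * bb H u v := by
  unfold bb
  rw [ip_smul_right, ip_smul_right]
  ring

theorem disc_add (hH : H.IsCohomology) (v w : Fin 23 → ℤ) :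
    H.disc (v + w) = H.disc v + H.disc w + 2 * bb H v w := disc_sum hH v w

theorem disc_sub (hH : H.IsCohomology) (v w : Fin 23 → ℤ) :
    H.disc (v + (-1 : ℤ) • w) = H.disc v + H.disc w - 2 * bb H v w := by
  rw [disc_add hH, disc_smul, bb_smul]
  ring

/-- a class with an even product, a discriminant not divisible by four and a small determinant -/
theorem rational_of_det (hH : H.IsCohomology) (hR : KnownRational H) (P : X.Plane)
    {v : Fin 23 → ℤ} (hv : H.IsHodge v) (h4 : ¬ 4 ∣ H.disc v) (hd : tdet H (H.cl P) v < 384) :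
    X.IsRational := by
  obtain ⟨p1, p2, p3⟩ := (hH.cl_range (H.cl P)).1 ⟨P, rfl⟩
  have hdP : H.disc (H.cl P) = 8 := by
    rw [disc, hH.comm H.h, p2, p3]
    norm_num
  by_cases hodd : Odd (H.ip v (H.h - H.cl P))
  · exact hH.hassett P v hv hodd
  rw [Int.not_odd_iff_even, ip_sub_right] at hodd
  obtain ⟨s, hs⟩ := hodd
  have e1 : H.ip H.h v = H.ip v H.h := hH.comm _ _
  have e2 : H.ip (H.cl P) v = H.ip v (H.cl P) := hH.comm _ _
  have e3 : H.ip H.h (H.cl P) = 1 := (hH.comm _ _).trans p2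
  -- the product with the plane is even
  obtain ⟨c, hc⟩ : ∃ c, bb H (H.cl P) v = 2 * c := by
    refine ⟨H.ip v (H.cl P) - s, ?_⟩
    unfold bb
    rw [e1, e2, e3]
    linear_combination (-1 : ℤ) * hs
  -- reduction modulo the plane
  obtain ⟨k, hk1, hk2⟩ : ∃ k : ℤ, -2 ≤ c + 4 * k ∧ c + 4 * k ≤ 2 := by
    refine ⟨-((c + 2) / 4), ?_, ?_⟩ <;> omega
  set w := v + k • H.cl P with hw
  have hwH : H.IsHodge w := H.isHodge_add hv (H.isHodge_smul _ p1)
  have hwd : H.disc w = H.disc v + 8 * k ^ 2 + 4 * k * c := by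
    rw [hw, disc_add hH, disc_smul, bb_smul, bb_comm hH, hc, hdP]
    ring
  have hw4 : ¬ 4 ∣ H.disc w := by
    intro h
    apply h4
    rw [hwd] at h
    obtain ⟨m, hm⟩ := h
    exact ⟨m - 2 * k ^ 2 - k * c, by linear_combination hm⟩
  have hle : H.disc w < 50 := by
    have h1 : 8 * H.disc w - (2 * (c + 4 * k)) ^ 2 < 384 := by
      have h2 : 8 * H.disc w - (2 * (c + 4 * k)) ^ 2 = tdet H (H.cl P) v := by
        unfold tdet
        rw [hwd, hc]
        ring
      rw [h2]
      exact hd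
    have h3 : (c + 4 * k) ^ 2 ≤ 4 := by nlinarith
    nlinarith
  have hT2 := disc_even hH w
  have hT3 := disc_mod_three (H := H) w
  refine rational_of_small hH hR ⟨P⟩ hwH hw4 ?_
  omega

/-- the subgroup generated by classes whose discriminants are divisible by four and whose products
are even -/
theorem span_even (hH : H.IsCohomology) {S : Set (Fin 23 → ℤ)} (h1 : ∀ s ∈ S, 4 ∣ H.disc s)
    (h2 : ∀ s ∈ S, ∀ t ∈ S, 2 ∣ bb H s t) {w : Fin 23 → ℤ} (hw : w ∈ Submodule.span ℤ S) :
    4 ∣ H.disc w := by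
  have h3 : ∀ s ∈ S, ∀ w ∈ Submodule.span ℤ S, 2 ∣ bb H s w := by
    intro s hs w hw
    induction hw using Submodule.span_induction with
    | mem x hx => exact h2 s hs x hx
    | zero =>
      have h := bb_smul (H := H) 0 s 0
      rw [zero_smul, zero_mul] at h
      rw [h]
      exact dvd_zero _
    | add x y _ _ hx hy =>
      rw [bb_add]
      exact dvd_add hx hy
    | smul a x _ hx =>
      rw [bb_smul]
      exact hx.mul_left _
  have h4 : ∀ u ∈ Submodule.span ℤ S, ∀ w ∈ Submodule.span ℤ S, 2 ∣ bb H u w := by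
    intro u hu w hw
    induction hw using Submodule.span_induction with
    | mem x hx =>
      rw [bb_comm hH]
      exact h3 x hx u hu
    | zero =>
      have h := bb_smul (H := H) 0 u 0
      rw [zero_smul, zero_mul] at h
      rw [h]
      exact dvd_zero _
    | add x y _ _ hx hy =>
      rw [bb_add]
      exact dvd_add hx hy
    | smul a x _ hx =>
      rw [bb_smul]
      exact hx.mul_left _
  induction hw using Submodule.span_induction with
  | mem x hx => exact h1 x hx
  | zero =>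
    have h := disc_smul (H := H) 0 0
    rw [zero_smul] at h
    rw [h]
    norm_num
  | add x y hx' hy' hx hy =>
    rw [disc_add hH]
    obtain ⟨a, ha⟩ := h4 x hx' y hy'
    rw [ha]
    exact dvd_add (dvd_add hx hy) ⟨a, by ring⟩
  | smul a x _ hx =>
    rw [disc_smul]
    exact hx.mul_left _

/-- an odd multiple -/
theorem four_dvd_of_odd {m d : ℤ} (hm : Odd m) (h : 4 ∣ m ^ 2 * d) : 4 ∣ d := by
  have h1 : IsCoprime (4 : ℤ) (m ^ 2) := by
    have h2 : IsCoprime (2 : ℤ) m := by
      obtain ⟨k, hk⟩ := hm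
      exact ⟨-k, 1, by rw [hk]; ring⟩
    have h3 : IsCoprime ((2 : ℤ) ^ 2) (m ^ 2) := h2.pow
    norm_num at h3
    exact h3
  exact h1.dvd_of_dvd_mul_left h

/-- the criterion for the existence of an associated K3 surface, on generators -/
theorem k3_iff (hH : H.IsCohomology) (hP : Nonempty X.Plane) {S : Set (Fin 23 → ℤ)}
    (hS : ∀ s ∈ S, H.IsHodge s)
    (hgen : ∀ v, H.IsHodge v → ∃ m : ℤ, Odd m ∧ m • v ∈ Submodule.span ℤ S) :
    H.HasK3 ↔ (∃ s ∈ S, ¬ 4 ∣ H.disc s) ∨ ∃ s ∈ S, ∃ t ∈ S, ¬ 4 ∣ H.disc (s + t) := by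
  rw [hasK3_iff_of_plane hH hP]
  constructor
  · rintro ⟨v, hv, h4⟩
    by_contra hcon
    push Not at hcon
    obtain ⟨c1, c2⟩ := hcon
    apply h4
    obtain ⟨m, hm, hmv⟩ := hgen v hv
    have h1 : 4 ∣ H.disc (m • v) := by
      refine span_even hH c1 (fun s hs t ht => ?_) hmv
      have h2 := c2 s hs t ht
      rw [disc_add hH] at h2
      have h3 := c1 s hs
      have h5 := c1 t ht
      omega
    rw [disc_smul] at h1
    exact four_dvd_of_odd hm h1
  · rintro (⟨s, hs, h4⟩ | ⟨s, hs, t, ht, h4⟩)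
    · exact ⟨s, hS s hs, h4⟩
    · exact ⟨s + t, H.isHodge_add (hS s hs) (hS t ht), h4⟩

/-- small generators -/
theorem rational_of_gen (hH : H.IsCohomology) (hR : KnownRational H) (P : X.Plane)
    (hgen : ∀ v, H.IsHodge v → ∃ m : ℤ, Odd m ∧
      m • v ∈ Submodule.span ℤ {s | H.IsHodge s ∧ tdet H (H.cl P) s ≤ 192}) (hK : H.HasK3) :
    X.IsRational := by
  set S : Set (Fin 23 → ℤ) := {s | H.IsHodge s ∧ tdet H (H.cl P) s ≤ 192} with hSdef
  by_contra hnot
  have hbig : ∀ v, H.IsHodge v → tdet H (H.cl P) v < 384 → 4 ∣ H.disc v := by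
    intro v hv hd
    by_contra h4
    exact hnot (rational_of_det hH hR P hv h4 hd)
  -- the products with the plane are even
  obtain ⟨p1, p2, p3⟩ := (hH.cl_range (H.cl P)).1 ⟨P, rfl⟩
  have hev : ∀ v, H.IsHodge v → ∃ c, bb H (H.cl P) v = 2 * c := by
    intro v hv
    have hodd : ¬ Odd (H.ip v (H.h - H.cl P)) := fun h => hnot (hH.hassett P v hv h)
    rw [Int.not_odd_iff_even, ip_sub_right] at hodd
    obtain ⟨s, hs⟩ := hodd
    have e1 : H.ip H.h v = H.ip v H.h := hH.comm _ _
    have e2 : H.ip (H.cl P) v = H.ip v (H.cl P) := hH.comm _ _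
    have e3 : H.ip H.h (H.cl P) = 1 := (hH.comm _ _).trans p2
    refine ⟨H.ip v (H.cl P) - s, ?_⟩
    unfold bb
    rw [e1, e2, e3]
    linear_combination (-1 : ℤ) * hs
  rcases (k3_iff hH ⟨P⟩ (S := S) (fun s hs => hs.1) hgen).1 hK with ⟨s, hs, h4⟩ | ⟨s, hs, t, ht, h4⟩
  · exact h4 (hbig s hs.1 (by have := hs.2; omega))
  · have hs4 := hbig s hs.1 (by have := hs.2; omega)
    have ht4 := hbig t ht.1 (by have := ht.2; omega)
    obtain ⟨cs, hcs⟩ := hev s hs.1
    obtain ⟨ct, hct⟩ := hev t ht.1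
    have hsum := disc_add hH s t
    have hdif := disc_sub hH s t
    have hbs : bb H (H.cl P) (s + t) = 2 * (cs + ct) := by rw [bb_add, hcs, hct]; ring
    have hbd : bb H (H.cl P) (s + (-1 : ℤ) • t) = 2 * (cs - ct) := by
      rw [bb_add, bb_smul, hcs, hct]; ring
    have hsH := H.isHodge_add hs.1 ht.1
    have hdH : H.IsHodge (s + (-1 : ℤ) • t) := H.isHodge_add hs.1 (H.isHodge_smul _ ht.1)
    have hs2 := hs.2
    have ht2 := ht.2
    have k1 : ¬ tdet H (H.cl P) (s + t) < 384 := fun h => h4 (hbig _ hsH h)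
    have k2 : ¬ tdet H (H.cl P) (s + (-1 : ℤ) • t) < 384 := by
      intro h
      have := hbig _ hdH h
      omega
    unfold tdet at hs2 ht2 k1 k2
    rw [hcs] at hs2
    rw [hct] at ht2
    rw [hbs, hsum] at k1
    rw [hbd, hdif] at k2
    -- equality
    have q1 : 8 * H.disc s = 192 + 4 * cs ^ 2 := by nlinarith
    have q2 : 8 * H.disc t = 192 + 4 * ct ^ 2 := by nlinarith
    have q3 : 2 * bb H s t = cs * ct := by nlinarith
    have r1 : Even cs := by
      rw [← Int.even_pow' (n := 2) two_ne_zero]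
      exact ⟨H.disc s - 24, by linarith⟩
    have r2 : Even ct := by
      rw [← Int.even_pow' (n := 2) two_ne_zero]
      exact ⟨H.disc t - 24, by linarith⟩
    obtain ⟨a, ha⟩ := r1
    obtain ⟨b, hb⟩ := r2
    apply h4
    rw [hsum]
    have r3 : bb H s t = 2 * (a * b) := by
      have : 2 * bb H s t = 2 * (2 * (a * b)) := by
        rw [q3, ha, hb]
        ring
      linarith
    rw [r3]
    exact dvd_add (dvd_add hs4 ht4) ⟨a * b, by ring⟩

end Pool.Agent.K9h76.CF
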