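import Pool.Agent.K9h76.CF.Det3

set_option autoImplicit false

/-!
# The graph of the planes (helper76)
-/

namespace Pool.Agent.K9h76.CF.Cnf

open Pool.Agent.Y95.Q Pool.Agent.Y95.Q.H4 Finset Module

variable {X : CubicFourfold} {H : H4 X} {pa pb pg : ℕ}

open Classical in
/-- the planes which meet a given plane in a line -/
noncomputable def nb (H : H4 X) (S : Finset (Fin 23 → ℤ)) (P : Fin 23 → ℤ) : Finset (Fin 23 → ℤ) :=
  S.filter fun v => H.ip P v = -1

theorem mem_nb {S : Finset (Fin 23 → ℤ)} (hS : ∀ v, v ∈ S ↔ H.IsPl v) {P v : Fin 23 → ℤ} :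
    v ∈ nb H S P ↔ H.IsPl v ∧ H.ip P v = -1 := by
  classical
  unfold nb
  rw [mem_filter, hS]

theorem card_nb (hH : H.IsCohomology) {S : Finset (Fin 23 → ℤ)} (hS : ∀ v, v ∈ S ↔ H.IsPl v)
    {A B C : Fin 23 → ℤ} (ht : H.Tri A B C) : (nb H S A).card = (H.cls S A B C).card + 2 := by
  classical
  have hBC : B ≠ C := by
    intro h
    have h1 := ht.bc
    rw [← h, ht.b.2.2] at h1
    norm_num at h1
  have hdec : nb H S A = {B, C} ∪ H.cls S A B C := by
    ext x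
    rw [mem_nb hS, mem_union, mem_cls hS, mem_insert, mem_singleton]
    constructor
    · rintro ⟨h1, h2⟩
      by_cases hxB : x = B
      · exact Or.inl (Or.inl hxB)
      by_cases hxC : x = C
      · exact Or.inl (Or.inr hxC)
      exact Or.inr ⟨h1, hxB, hxC, (hH.comm _ _).trans h2⟩
    · rintro ((rfl | rfl) | h)
      · exact ⟨ht.b, ht.ab⟩
      · exact ⟨ht.c, ht.ac⟩
      · exact ⟨h.1, (hH.comm _ _).trans h.2.2.2⟩
  have hdis : Disjoint ({B, C} : Finset (Fin 23 → ℤ)) (H.cls S A B C) := by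
    rw [Finset.disjoint_left]
    intro x h h'
    rw [mem_cls hS] at h'
    simp only [mem_insert, mem_singleton] at h
    rcases h with rfl | rfl
    · exact h'.2.1 rfl
    · exact h'.2.2.1 rfl
  rw [hdec, card_union_of_disjoint hdis, card_pair hBC]
  ring

/-- the planes form a star -/
theorem star_case (hH : H.IsCohomology) (hE : H.AllEven) (hC : Cfg H pa pb pg) {S : Finset (Fin 23 → ℤ)}
    (hS : ∀ v, v ∈ S ↔ H.IsPl v) {A B C : Fin 23 → ℤ} (ht : H.Tri A B C)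
    (hb : (H.cls S B C A).card = 0) (hc : (H.cls S C A B).card = 0) :
    ∃ k, 1 ≤ k ∧ k ≤ pb ∧ S.card = 1 + 2 * k ∧ ∃ A ∈ S, ∀ Q ∈ S, Q ≠ A →
      H.ip A Q = -1 ∧ (nb H S Q).card = 2 := by
  obtain ⟨a, ha⟩ := cls_even hH (fun x => mem_cls hS) ht
  have s1 := cls_star hH hE hC (fun x => mem_cls hS) ht (k := a) (by omega)
  have hdec := card_decomp hH hE hS ht
  refine ⟨a + 1, by omega, s1, by omega, A, (hS _).2 ht.a, fun Q hQ hne => ?_⟩
  have hQ' := (hS _).1 hQ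
  have hAQ : H.ip A Q = -1 := by
    rw [card_eq_zero, eq_empty_iff_forall_notMem] at hb hc
    rcases hH.cases hE ht hQ' with h | h | h | h | h | h
    · exact absurd h hne
    · rw [h]
      exact ht.ab
    · rw [h]
      exact ht.ac
    · exact (hH.comm _ _).trans h.2.2.2
    · exact absurd ((mem_cls hS).2 h) (hb Q)
    · exact absurd ((mem_cls hS).2 h) (hc Q)
  refine ⟨hAQ, ?_⟩
  have ht' := hH.tri ht.a hQ' hAQ
  have n1 := card_nb hH hS ht
  have n2 := card_nb hH hS ht'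
  have n3 := card_nb hH hS (ht'.rot hH)
  have hdec' := card_decomp hH hE hS ht'
  omega

/-- **The graph of the planes.** -/
theorem graph (hH : H.IsCohomology) (hE : H.AllEven) (hC : Cfg H pa pb pg) {S : Finset (Fin 23 → ℤ)}
    (hS : ∀ v, v ∈ S ↔ H.IsPl v) :
    (S.card ≤ pa ∧ ∀ P ∈ S, ∀ Q ∈ S, P ≠ Q → H.ip P Q = 1) ∨
    (∃ k, 1 ≤ k ∧ k ≤ pb ∧ S.card = 1 + 2 * k ∧ ∃ A ∈ S, ∀ Q ∈ S, Q ≠ A →
      H.ip A Q = -1 ∧ (nb H S Q).card = 2) ∨
    (∃ t, ((t = 1 ∧ 1 ≤ pg) ∨ (t = 2 ∧ 2 ≤ pg) ∨ (t = 4 ∧ 3 ≤ pg)) ∧ S.card = 3 * (2 * t + 1) ∧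
      (∀ P ∈ S, (nb H S P).card = 2 * (t + 1)) ∧
      ∀ P ∈ S, ∀ Q ∈ S, H.ip P Q = 1 → ∀ M : Finset (Fin 23 → ℤ),
        (∀ v, v ∈ M ↔ H.IsPl v ∧ H.ip P v = -1 ∧ H.ip Q v = -1) → M.card = t + 1) := by
  classical
  by_cases hedge : ∃ P ∈ S, ∃ Q ∈ S, H.ip P Q = -1
  · right
    obtain ⟨P, hP, Q, hQ, hPQ⟩ := hedge
    rw [hS] at hP hQ
    have ht := hH.tri hP hQ hPQ
    generalize H.h - P - Q = R at ht
    have t2 := ht.rot hH
    have t3 := t2.rot hH
    have hc := card_decomp hH hE hS ht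
    have key : ∀ {A B C : Fin 23 → ℤ}, H.Tri A B C → (H.cls S A B C).card ≠ 0 →
        (H.cls S B C A).card = (H.cls S C A B).card ∧
        ((H.cls S B C A).card = 0 ∨ ((H.cls S B C A).card = 2 ∧ 1 ≤ pg) ∨
          ((H.cls S B C A).card = 4 ∧ 2 ≤ pg) ∨ ((H.cls S B C A).card = 8 ∧ 3 ≤ pg)) := by
      intro A B C t h
      obtain ⟨x, hx⟩ := card_pos.1 (Nat.pos_of_ne_zero h)
      have hx' := (mem_cls hS).1 hx
      refine ⟨cls_card_eq hH hE hS t hx', ?_⟩
      have h1 := cls_half hH hE hS t hx'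
      have h2 := common hH hE hC hS t hx' rfl
      omega
    have k1 := key ht
    have k2 := key t2
    have k3 := key t3
    by_cases hs1 : (H.cls S Q R P).card = 0 ∧ (H.cls S R P Q).card = 0
    · exact Or.inl (star_case hH hE hC hS ht hs1.1 hs1.2)
    by_cases hs2 : (H.cls S R P Q).card = 0 ∧ (H.cls S P Q R).card = 0
    · exact Or.inl (star_case hH hE hC hS t2 hs2.1 hs2.2)
    by_cases hs3 : (H.cls S P Q R).card = 0 ∧ (H.cls S Q R P).card = 0
    · exact Or.inl (star_case hH hE hC hS t3 hs3.1 hs3.2)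
    right
    obtain ⟨t, ht0, hp, hq, hr⟩ : ∃ t, ((t = 1 ∧ 1 ≤ pg) ∨ (t = 2 ∧ 2 ≤ pg) ∨ (t = 4 ∧ 3 ≤ pg)) ∧
        (H.cls S P Q R).card = 2 * t ∧ (H.cls S Q R P).card = 2 * t ∧ (H.cls S R P Q).card = 2 * t := by
      refine ⟨(H.cls S P Q R).card / 2, ?_, ?_, ?_, ?_⟩ <;> omega
    have hcard : S.card = 3 * (2 * t + 1) := by omega
    have htpos : t ≠ 0 := by omega
    have hnP : (nb H S P).card = 2 * (t + 1) := by rw [card_nb hH hS ht, hp]; ring
    have hnQ : (nb H S Q).card = 2 * (t + 1) := by rw [card_nb hH hS t2, hq]; ring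
    have hnR : (nb H S R).card = 2 * (t + 1) := by rw [card_nb hH hS t3, hr]; ring
    -- a neighbour of a plane with `2 (t + 1)` neighbours has `2 (t + 1)` neighbours
    have hstep : ∀ {A x : Fin 23 → ℤ}, H.IsPl A → H.IsPl x → H.ip A x = -1 →
        (nb H S A).card = 2 * (t + 1) → (nb H S x).card = 2 * (t + 1) := by
      intro A x hA hx hAx hn
      have u := hH.tri hA hx hAx
      have n1 := card_nb hH hS u
      have n2 := card_nb hH hS (u.rot hH)
      have n3 := key u (by omega)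
      have n4 := card_decomp hH hE hS u
      omega
    have hdeg : ∀ x, H.IsPl x → (nb H S x).card = 2 * (t + 1) := by
      intro x hx
      rcases hH.cases hE ht hx with h | h | h | h | h | h
      · rw [h, hnP]
      · rw [h, hnQ]
      · rw [h, hnR]
      · exact hstep ht.a hx ((hH.comm _ _).trans h.2.2.2) hnP
      · exact hstep ht.b hx ((hH.comm _ _).trans h.2.2.2) hnQ
      · exact hstep ht.c hx ((hH.comm _ _).trans h.2.2.2) hnR
    refine ⟨t, ht0, hcard, fun x hx => hdeg x ((hS x).1 hx), ?_⟩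
    intro x hx y hy hxy M hM
    rw [hS] at hx hy
    -- a common neighbour
    obtain ⟨A, hA, hxA, hyA⟩ : ∃ A, H.IsPl A ∧ H.ip x A = -1 ∧ H.ip y A = -1 := by
      have h1 : (nb H S x).Nonempty := by
        rw [← card_pos, hdeg x hx]
        omega
      obtain ⟨B, hB⟩ := h1
      rw [mem_nb hS] at hB
      have u := hH.tri hx hB.1 hB.2
      rcases hH.cases hE u hy with h | h | h | h | h | h
      · rw [h, hx.2.2] at hxy
        norm_num at hxy
      · rw [h, hB.2] at hxy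
        norm_num at hxy
      · rw [h, u.ac] at hxy
        norm_num at hxy
      · have h1 := h.2.2.2
        rw [hH.comm, hxy] at h1
        norm_num at h1
      · exact ⟨B, hB.1, hB.2, h.2.2.2⟩
      · exact ⟨_, u.c, u.ac, h.2.2.2⟩
    have u := hH.tri hA hx ((hH.comm _ _).trans hxA)
    generalize H.h - A - x = C at u
    have hyx : H.ip y x = 1 := (hH.comm _ _).trans hxy
    have hy' : H.InCls A x C y := by
      refine ⟨hy, ?_, ?_, hyA⟩
      · intro h
        rw [h, hx.2.2] at hyx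
        norm_num at hyx
      · intro h
        have h1 := u.bc
        rw [← h, hxy] at h1
        norm_num at h1
    obtain ⟨-, xC⟩ := InCls.other hH hE u hy'
    have h1 := cls_half hH hE hS u hy'
    have h2 := card_nb hH hS (u.rot hH)
    rw [hdeg x hx] at h2
    have hdec : M = insert A ((H.cls S x C A).filter fun z => H.ip y z = -1) := by
      ext z
      rw [hM, mem_insert, mem_filter, mem_cls hS]
      constructor
      · rintro ⟨z1, z2, z3⟩
        by_cases hzA : z = A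
        · exact Or.inl hzA
        refine Or.inr ⟨⟨z1, ?_, hzA, (hH.comm _ _).trans z2⟩, z3⟩
        intro h
        rw [h, xC] at z3
        norm_num at z3
      · rintro (rfl | ⟨z1, z3⟩)
        · exact ⟨hA, hxA, hyA⟩
        · exact ⟨z1.1, (hH.comm _ _).trans z1.2.2.2, z3⟩
    have hcM : M.card = ((H.cls S x C A).filter fun z => H.ip y z = -1).card + 1 := by
      rw [hdec, card_insert_of_notMem]
      rw [mem_filter, mem_cls hS]
      rintro ⟨h, -⟩
      exact h.2.2.1 rfl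
    omega
  · left
    push Not at hedge
    have hpt : ∀ P ∈ S, ∀ Q ∈ S, P ≠ Q → H.ip P Q = 1 := by
      intro P hP Q hQ hne
      rcases hH.pm hE ((hS _).1 hP) ((hS _).1 hQ) hne with h | h
      · exact h
      · exact absurd h (hedge _ hP _ hQ)
    refine ⟨?_, hpt⟩
    let e : Fin S.card ≃ S := S.equivFin.symm
    exact hC.pts (D := fun i => (e i : Fin 23 → ℤ)) (fun i => (hS _).1 (e i).2) fun i j hij =>
      hpt _ (e i).2 _ (e j).2 fun h => hij (e.injective (Subtype.ext h))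

/-! ### transfer to the planes in `X` -/

theorem card_sub (hH : H.IsCohomology) {S : Finset (Fin 23 → ℤ)} (hS : ∀ v, v ∈ S ↔ H.IsPl v)
    (p : (Fin 23 → ℤ) → Prop) [DecidablePred p] :
    Nat.card {Q : X.Plane // p (H.cl Q)} = (S.filter p).card := by
  have hmem : ∀ Q : {Q : X.Plane // p (H.cl Q)}, H.cl Q ∈ S.filter p := fun Q => by
    rw [mem_filter, hS]
    exact ⟨(hH.cl_range _).1 ⟨_, rfl⟩, Q.2⟩
  have e : {Q : X.Plane // p (H.cl Q)} ≃ (S.filter p : Finset (Fin 23 → ℤ)) := by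
    refine Equiv.ofBijective (fun Q => ⟨H.cl Q, hmem Q⟩) ⟨fun P Q h => ?_, fun v => ?_⟩
    · exact Subtype.ext (hH.cl_injective (congrArg Subtype.val h))
    · obtain ⟨h1, h2⟩ := mem_filter.1 v.2
      obtain ⟨Q, hQ⟩ := (hH.cl_range v.1).2 ((hS _).1 h1)
      exact ⟨⟨Q, by rw [hQ]; exact h2⟩, Subtype.ext hQ⟩
  rw [Nat.card_congr e, Nat.card_eq_fintype_card, Fintype.card_coe]

theorem equiv_all (hH : H.IsCohomology) {S : Finset (Fin 23 → ℤ)} (hS : ∀ v, v ∈ S ↔ H.IsPl v) :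
    Nonempty (X.Plane ≃ S) := by
  refine ⟨Equiv.ofBijective (fun Q => ⟨H.cl Q, (hS _).2 ((hH.cl_range _).1 ⟨Q, rfl⟩)⟩)
    ⟨fun P Q h => ?_, fun v => ?_⟩⟩
  · exact hH.cl_injective (congrArg Subtype.val h)
  · obtain ⟨Q, hQ⟩ := (hH.cl_range v.1).2 ((hS _).1 v.2)
    exact ⟨Q, Subtype.ext hQ⟩

/-- **The configuration of the planes.** -/
theorem planes_graph (hH : H.IsCohomology) (hE : H.AllEven) (hC : Cfg H pa pb pg) :
    Finite X.Plane ∧
    (∀ P Q : X.Plane, P ≠ Q → H.ip (H.cl P) (H.cl Q) = 1 ∨ (H.ip (H.cl P) (H.cl Q) = -1 ∧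
      Nat.card {R : X.Plane // H.ip (H.cl P) (H.cl R) = -1 ∧ H.ip (H.cl Q) (H.cl R) = -1} = 1)) ∧
    (∀ (n : ℕ) (P : Fin n → X.Plane), (∀ i j, i ≠ j → H.ip (H.cl (P i)) (H.cl (P j)) = 1) → n ≤ pa) ∧
    ((Nat.card X.Plane ≤ pa ∧ ∀ P Q : X.Plane, P ≠ Q → H.ip (H.cl P) (H.cl Q) = 1) ∨
     (∃ (k : ℕ) (A : X.Plane), 1 ≤ k ∧ k ≤ pb ∧ Nat.card X.Plane = 1 + 2 * k ∧ ∀ Q : X.Plane, Q ≠ A →
       H.ip (H.cl A) (H.cl Q) = -1 ∧ Nat.card {R : X.Plane // H.ip (H.cl Q) (H.cl R) = -1} = 2) ∨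
     (∃ t : ℕ, ((t = 1 ∧ 1 ≤ pg) ∨ (t = 2 ∧ 2 ≤ pg) ∨ (t = 4 ∧ 3 ≤ pg)) ∧
       Nat.card X.Plane = 3 * (2 * t + 1) ∧
       (∀ P : X.Plane, Nat.card {R : X.Plane // H.ip (H.cl P) (H.cl R) = -1} = 2 * (t + 1)) ∧
       ∀ P Q : X.Plane, H.ip (H.cl P) (H.cl Q) = 1 →
         Nat.card {R : X.Plane // H.ip (H.cl P) (H.cl R) = -1 ∧ H.ip (H.cl Q) (H.cl R) = -1} = t + 1)) := by
  classical
  obtain ⟨S, hS⟩ := exists_planes hH hE
  obtain ⟨e⟩ := equiv_all hH hS
  have hfin : Finite X.Plane := Finite.of_equiv _ e.symm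
  have hcard : Nat.card X.Plane = S.card := by
    rw [Nat.card_congr e, Nat.card_eq_fintype_card, Fintype.card_coe]
  have hpl : ∀ P : X.Plane, H.IsPl (H.cl P) := fun P => (hH.cl_range _).1 ⟨P, rfl⟩
  have hmem : ∀ P : X.Plane, H.cl P ∈ S := fun P => (hS _).2 (hpl P)
  have hnb : ∀ P : X.Plane, Nat.card {R : X.Plane // H.ip (H.cl P) (H.cl R) = -1} = (nb H S (H.cl P)).card := by
    intro P
    rw [card_sub hH hS (fun v => H.ip (H.cl P) v = -1)]
    unfold nb
    congr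
  have hcn : ∀ P Q : X.Plane, Nat.card {R : X.Plane // H.ip (H.cl P) (H.cl R) = -1 ∧ H.ip (H.cl Q) (H.cl R) = -1} =
      (S.filter fun v => H.ip (H.cl P) v = -1 ∧ H.ip (H.cl Q) v = -1).card := by
    intro P Q
    exact card_sub hH hS (fun v => H.ip (H.cl P) v = -1 ∧ H.ip (H.cl Q) v = -1)
  refine ⟨hfin, fun P Q hPQ => ?_, fun n P hP => hC.pts (D := fun i => H.cl (P i)) (fun i => hpl _) hP, ?_⟩
  · rcases hH.pm hE (hpl P) (hpl Q) (fun h => hPQ (hH.cl_injective h)) with h | h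
    · exact Or.inl h
    · refine Or.inr ⟨h, ?_⟩
      have ht := hH.tri (hpl P) (hpl Q) h
      generalize H.h - H.cl P - H.cl Q = R at ht
      rw [hcn, card_eq_one]
      refine ⟨R, ?_⟩
      ext v
      rw [mem_filter, mem_singleton, hS]
      constructor
      · rintro ⟨h1, h2, h3⟩
        by_contra hvR
        have hv : H.InCls (H.cl P) (H.cl Q) R v := by
          refine ⟨h1, ?_, hvR, (hH.comm _ _).trans h2⟩
          intro h4
          rw [h4, (hpl Q).2.2] at h3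
          norm_num at h3
        have h5 := (InCls.other hH hE ht hv).1
        rw [hH.comm, h3] at h5
        norm_num at h5
      · rintro rfl
        exact ⟨ht.c, ht.ac, ht.bc⟩
  · rcases graph hH hE hC hS with ⟨h1, h2⟩ | ⟨k, k1, k2, k3, A, hA, h4⟩ | ⟨t, t1, t2, t3, t4⟩
    · exact Or.inl ⟨hcard.trans_le h1, fun P Q hPQ => h2 _ (hmem P) _ (hmem Q) fun h => hPQ (hH.cl_injective h)⟩
    · obtain ⟨A, rfl⟩ := (hH.cl_range A).2 ((hS _).1 hA)
      refine Or.inr (Or.inl ⟨k, A, k1, k2, hcard.trans k3, fun Q hQ => ?_⟩)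
      have h5 := h4 _ (hmem Q) fun h => hQ (hH.cl_injective h)
      rw [hnb]
      exact h5
    · refine Or.inr (Or.inr ⟨t, t1, hcard.trans t2, fun P => ?_, fun P Q hPQ => ?_⟩)
      · rw [hnb]
        exact t3 _ (hmem P)
      · rw [hcn]
        refine t4 _ (hmem P) _ (hmem Q) hPQ _ fun v => ?_
        rw [mem_filter, hS]

end Pool.Agent.K9h76.CF.Cnf
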