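import Pool.Agent.K9h76.CF.Graph
import Pool.Agent.K9h76.CF.Gen

set_option autoImplicit false

/-!
# The planes, the rank and associated K3 surfaces (helper76)

If all the products `T.(h - P)` are even and `h` and the planes generate the lattice of the Hodge classes up
to an odd index, then all the discriminants are divisible by four, so that there is no associated K3 surface.
-/

namespace Pool.Agent.K9h76.CF.Spn

open Pool.Agent.Y95.Q Pool.Agent.Y95.Q.H4 Finset Module Pool.Agent.K9h76.CF.Cnf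

variable {X : CubicFourfold} {H : H4 X}

/-- a bound for the dimension of the space which is generated by the classes `h - P` modulo two -/
def BdW (H : H4 X) (d : ℕ) : Prop := ∀ (ι : Type) [Fintype ι] (g : ι → Fin 23 → ℤ),
  (∀ j, H.IsHodge (g j)) → (∀ j T, H.IsHodge T → Even (H.ip T (g j))) → Ind2 g →
  (∀ j, ∃ P, H.IsPl P ∧ g j = H.h - P) → Fintype.card ι ≤ d

/-! ### families of planes -/

variable {dd : ℕ}

/-- planes which meet pairwise in points -/
theorem pts_le (hH : H.IsCohomology) (hE : H.AllEven) (hBd : BdW H dd) {k : ℕ} {D : Fin k → Fin 23 → ℤ}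
    (hD : ∀ i, H.IsPl (D i)) (hDD : ∀ i j, i ≠ j → H.ip (D i) (D j) = 1) (hk : k % 4 ≠ 1) : k ≤ dd := by
  have h := hBd _ (fun j => H.h - D j) (fun j => hodge_hP hH (hD j))
    (fun j T hT => hE _ (hD j) T hT) (fun ε ⟨v, hv⟩ => by
      refine parity hH hE hD hDD hk (w := 0) (a := 0) (b := 0) H.isHodge_zero (fun i => ?_) ?_ ?_ (by simp)
        (c := 0) (v := v) ?_
      · rw [ip_zero_left]
      · rw [ip_zero_left]; norm_num
      · rw [ip_zero_left]; norm_num
      · rw [smul_zero, zero_add, hv]) (fun j => ⟨D j, hD j, rfl⟩)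
  rwa [Fintype.card_fin] at h

/-- one plane -/
theorem one_le (hH : H.IsCohomology) (hE : H.AllEven) (hBd : BdW H dd) {A : Fin 23 → ℤ} (hA : H.IsPl A) :
    1 ≤ dd := by
  have h := hBd Unit (fun _ => H.h - A) (fun _ => hodge_hP hH hA) (fun _ T hT => hE _ hA T hT) ?_
    (fun _ => ⟨A, hA, rfl⟩)
  · rwa [Fintype.card_unit] at h
  · rintro ε ⟨v, hv⟩ ⟨⟩
    rw [Fintype.sum_unique] at hv
    exact even_of_half hH hA hv

/-- two planes with a common line -/
theorem two_le (hH : H.IsCohomology) (hE : H.AllEven) (hBd : BdW H dd) {A B C : Fin 23 → ℤ}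
    (ht : H.Tri A B C) : 2 ≤ dd := by
  have h := hBd (Option Unit) (fun o => o.elim (H.h - A) fun _ => H.h - B) ?_ ?_ ?_ (by
    rintro (_ | _)
    · exact ⟨A, ht.a, rfl⟩
    · exact ⟨B, ht.b, rfl⟩)
  · rwa [Fintype.card_option, Fintype.card_unit] at h
  · rintro (_ | _)
    · exact hodge_hP hH ht.a
    · exact hodge_hP hH ht.b
  · rintro (_ | _) T hT
    · exact hE _ ht.a T hT
    · exact hE _ ht.b T hT
  · rintro ε ⟨v, hv⟩
    rw [Fintype.sum_option, Fintype.sum_unique] at hv
    simp only [Option.elim] at hv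
    have key : ∀ a b : ℤ, a • (H.h - A) + b • (H.h - B) = (2 : ℤ) • v → Even a ∧ Even b := by
      intro a b hv
      rcases Int.even_or_odd a with ⟨p, hp⟩ | ⟨p, hp⟩ <;> rcases Int.even_or_odd b with ⟨q, hq⟩ | ⟨q, hq⟩
      · exact ⟨⟨p, hp⟩, ⟨q, hq⟩⟩
      · refine ⟨⟨p, hp⟩, even_of_half hH ht.b (c := b) (v := v - p • (H.h - A)) ?_⟩
        rw [smul_sub (2 : ℤ), ← hv, hp]
        module
      · refine ⟨even_of_half hH ht.a (c := a) (v := v - q • (H.h - B)) ?_, ⟨q, hq⟩⟩
        rw [smul_sub (2 : ℤ), ← hv, hq]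
        module
      · exfalso
        have h1 : Even (1 : ℤ) := by
          refine even_of_half hH ht.c (c := 1) (v := p • (H.h - A) + q • (H.h - B) - v + H.h) ?_
          rw [smul_add (2 : ℤ), smul_sub (2 : ℤ), ← hv, hp, hq]
          rw [← ht.sum]
          module
        exact absurd h1 (by decide)
    have key := key _ _ hv
    rintro (_ | ⟨⟩)
    · exact key.1
    · exact key.2

theorem pts_le_kap (hH : H.IsCohomology) (hE : H.AllEven) (hBd : BdW H dd) {k : ℕ} {D : Fin k → Fin 23 → ℤ}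
    (hD : ∀ i, H.IsPl (D i)) (hDD : ∀ i j, i ≠ j → H.ip (D i) (D j) = 1) : k ≤ kap (dd) := by
  unfold kap
  by_cases hk : k % 4 = 1
  · obtain ⟨k, rfl⟩ : ∃ l, k = l + 1 := ⟨k - 1, by omega⟩
    have h := pts_le hH hE hBd (D := fun i : Fin k => D i.castSucc) (fun i => hD _)
      (fun i j hij => hDD _ _ fun h => hij (Fin.castSucc_injective _ h)) (by omega)
    have h1 := one_le hH hE hBd (hD 0)
    split_ifs <;> omega
  · have h := pts_le hH hE hBd hD hDD hk
    split_ifs <;> omega

/-- planes which meet pairwise in points and a plane in lines -/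
theorem star_le (hH : H.IsCohomology) (hE : H.AllEven) (hBd : BdW H dd) {k : ℕ} {A : Fin 23 → ℤ} {D : Fin k → Fin 23 → ℤ}
    (hA : H.IsPl A) (hAD : ∀ i, H.ip A (D i) = -1)
    (hD : ∀ i, H.IsPl (D i)) (hDD : ∀ i j, i ≠ j → H.ip (D i) (D j) = 1) (hk : k % 4 ≠ 1) : k + 1 ≤ dd := by
  have h := hBd _ (fun o : Option (Fin k) => o.elim (H.h - A) fun j => H.h - D j) ?_ ?_ ?_ (by
    rintro (_ | j)
    · exact ⟨A, hA, rfl⟩
    · exact ⟨D j, hD j, rfl⟩)
  · rwa [Fintype.card_option, Fintype.card_fin] at h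
  · rintro (_ | j)
    · exact hodge_hP hH hA
    · exact hodge_hP hH (hD j)
  · rintro (_ | j) T hT
    · exact hE _ hA T hT
    · exact hE _ (hD j) T hT
  · rintro ε ⟨v, hv⟩
    rw [Fintype.sum_option] at hv
    simp only [Option.elim] at hv
    have h1 : ∀ j, Even (ε (some j)) := by
      refine parity hH hE hD hDD hk (w := H.h - A) (a := 1) (b := 1) (hodge_hP hH hA) (fun i => ?_) ?_ ?_
        (by simp) hv
      · rw [hP_hP hH hA (hD i), hAD]; norm_num
      · rw [hP_hP hH hA hA, hA.2.2]; norm_num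
      · rw [hP_h hH hA]; norm_num
    rintro (_ | j)
    · choose d hd using h1
      refine even_of_half hH hA (c := ε none) (v := v - ∑ j, d j • (H.h - D j)) ?_
      have h2 : ∑ j, ε (some j) • (H.h - D j) = (2 : ℤ) • ∑ j, d j • (H.h - D j) := by
        rw [Finset.smul_sum]
        refine Finset.sum_congr rfl fun i _ => ?_
        rw [hd i]
        module
      rw [h2] at hv
      rw [smul_sub (2 : ℤ), ← hv]
      abel
    · exact h1 j

theorem star_le_kap (hH : H.IsCohomology) (hE : H.AllEven) (hBd : BdW H dd) {k : ℕ} {A : Fin 23 → ℤ} {D : Fin k → Fin 23 → ℤ}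
    (hA : H.IsPl A) (hAD : ∀ i, H.ip A (D i) = -1)
    (hD : ∀ i, H.IsPl (D i)) (hDD : ∀ i j, i ≠ j → H.ip (D i) (D j) = 1) : k ≤ kap (dd - 1) := by
  unfold kap
  by_cases hk : k % 4 = 1
  · obtain ⟨k, rfl⟩ : ∃ l, k = l + 1 := ⟨k - 1, by omega⟩
    have h := star_le hH hE hBd hA (D := fun i : Fin k => D i.castSucc) (fun i => hAD _) (fun i => hD _)
      (fun i j hij => hDD _ _ fun h => hij (Fin.castSucc_injective _ h)) (by omega)
    have h1 := two_le hH hE hBd (hH.tri hA (hD 0) (hAD 0))
    split_ifs <;> omega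
  · have h := star_le hH hE hBd hA hAD hD hDD hk
    split_ifs <;> omega

/-- planes which meet pairwise in points and two planes in lines -/
theorem gq_le (hH : H.IsCohomology) (hE : H.AllEven) (hBd : BdW H dd) {k : ℕ} {A x : Fin 23 → ℤ} {D : Fin k → Fin 23 → ℤ}
    (hA : H.IsPl A) (hx : H.IsPl x) (hAx : H.ip A x = 1) (hAD : ∀ i, H.ip A (D i) = -1)
    (hxD : ∀ i, H.ip x (D i) = -1)
    (hD : ∀ i, H.IsPl (D i)) (hDD : ∀ i j, i ≠ j → H.ip (D i) (D j) = 1) (hk : k % 4 ≠ 1) : k + 2 ≤ dd := by
  have h := hBd _ (fun o : Option (Option (Fin k)) =>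
    o.elim (H.h - A) fun o => o.elim (H.h - x) fun j => H.h - D j) ?_ ?_ ?_ (by
    rintro (_ | _ | j)
    · exact ⟨A, hA, rfl⟩
    · exact ⟨x, hx, rfl⟩
    · exact ⟨D j, hD j, rfl⟩)
  · rwa [Fintype.card_option, Fintype.card_option, Fintype.card_fin] at h
  · rintro (_ | _ | j)
    · exact hodge_hP hH hA
    · exact hodge_hP hH hx
    · exact hodge_hP hH (hD j)
  · rintro (_ | _ | j) T hT
    · exact hE _ hA T hT
    · exact hE _ hx T hT
    · exact hE _ (hD j) T hT
  · rintro ε ⟨v, hv⟩
    rw [Fintype.sum_option, Fintype.sum_option] at hv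
    simp only [Option.elim] at hv
    have hvH : H.IsHodge v := by
      refine H.isHodge_of_smul two_ne_zero ?_
      rw [← hv]
      exact H.isHodge_add (H.isHodge_smul _ (hodge_hP hH hA)) (H.isHodge_add
        (H.isHodge_smul _ (hodge_hP hH hx)) (H.isHodge_sum _ _ fun j _ => H.isHodge_smul _ (hodge_hP hH (hD j))))
    have z1 : ∀ i, H.ip (H.h - D i) (H.h - A) = 0 := fun i => by
      rw [hP_hP hH (hD i) hA, hH.comm, hAD]; norm_num
    have z2 : ∀ i, H.ip (H.h - D i) (H.h - x) = 0 := fun i => by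
      rw [hP_hP hH (hD i) hx, hH.comm, hxD]; norm_num
    have c2 : Even (ε (some none)) := by
      have h1 := congrArg (fun v => H.ip v (H.h - A)) hv
      simp only [ip_add_left, ip_sum_left, ip_smul_left, z1, mul_zero, sum_const_zero, hP_hP hH hA hA,
        hP_hP hH hx hA, hA.2.2, hH.comm x A, hAx] at h1
      obtain ⟨m, hm⟩ := hE _ hA v hvH
      rw [hm] at h1
      exact ⟨m - ε none, by linarith⟩
    have c1 : Even (ε none) := by
      have h1 := congrArg (fun v => H.ip v (H.h - x)) hv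
      simp only [ip_add_left, ip_sum_left, ip_smul_left, z2, mul_zero, sum_const_zero, hP_hP hH hx hx,
        hP_hP hH hA hx, hx.2.2, hAx] at h1
      obtain ⟨m, hm⟩ := hE _ hx v hvH
      rw [hm] at h1
      exact ⟨m - ε (some none), by linarith⟩
    obtain ⟨m1, hm1⟩ := c1
    obtain ⟨m2, hm2⟩ := c2
    have h1 : ∀ j, Even (ε (some (some j))) := by
      refine parity hH hE hD hDD hk (w := 0) (a := 0) (b := 0) H.isHodge_zero (fun i => ?_) ?_ ?_ (by simp)
        (c := 0) (v := v - m1 • (H.h - A) - m2 • (H.h - x)) ?_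
      · rw [ip_zero_left]
      · rw [ip_zero_left]; norm_num
      · rw [ip_zero_left]; norm_num
      · rw [hm1, hm2] at hv
        rw [smul_zero, zero_add, smul_sub, smul_sub, ← hv]
        module
    rintro (_ | _ | j)
    · exact ⟨m1, hm1⟩
    · exact ⟨m2, hm2⟩
    · exact h1 j

/-- the bounds which depend on the dimension of the space generated by the planes -/
theorem cfg_of_bdW (hH : H.IsCohomology) (hE : H.AllEven) (hBd : BdW H dd) :
    Cfg H (kap dd) (kap (dd - 1)) (dd - 3) where
  pts hD hDD := pts_le_kap hH hE hBd hD hDD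
  star hA hAD hD hDD _ := star_le_kap hH hE hBd hA hAD hD hDD
  gq {k A x D} hA hx hAx hAD hxD hD hDD h2 h4 := by
    have h := gq_le hH hE hBd hA hx hAx hAD hxD hD hDD (by omega)
    omega

/-! ### an odd multiple of each Hodge class -/

/-- a relation between `h` and the family is trivial -/
theorem rel_trivial (hH : H.IsCohomology) {ι : Type} [Fintype ι] {g : ι → Fin 23 → ℤ}
    (hgh : ∀ j, Even (H.ip (g j) H.h)) (hi : Ind2 g) {a : ℤ} {c : ι → ℤ}
    (h : a • H.h + ∑ j, c j • g j = 0) : a = 0 ∧ ∀ j, c j = 0 := by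
  have h3 := fun n => two_pow_dvd hH hgh hi n _ _ h
  exact ⟨eq_zero_of_two_pow fun n => (h3 n).1, fun j => eq_zero_of_two_pow fun n => (h3 n).2 j⟩

theorem odd_of_rel (hH : H.IsCohomology) {ι : Type} [Fintype ι] {g : ι → Fin 23 → ℤ}
    (hgh : ∀ j, Even (H.ip (g j) H.h)) (hi : Ind2 g) {T : Fin 23 → ℤ} (N : ℕ) :
    ∀ (n a : ℤ) (c : ι → ℤ), n.natAbs = N → n ≠ 0 → n • T + (a • H.h + ∑ j, c j • g j) = 0 →
      ∃ m : ℤ, Odd m ∧ m • T ∈ Submodule.span ℤ (insert H.h (Set.range g)) := by
  induction N using Nat.strong_induction_on with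
  | _ N ih =>
    intro n a c hN hn h
    rcases Int.even_or_odd n with hev | hodd
    · obtain ⟨n', hn'⟩ := hev
      have ha : Even a := by
        have h1 := congrArg (fun v => H.ip v H.h) h
        simp only [ip_add_left, ip_sum_left, ip_smul_left, hH.h_self, ip_zero_left] at h1
        have h2 : Even (∑ j, c j * H.ip (g j) H.h) := Finset.even_sum _ fun j _ => (hgh j).mul_left _
        have h3 : Even (a * 3) := by
          have h4 : a * 3 = -∑ j, c j * H.ip (g j) H.h - (n' + n') * H.ip T H.h := by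
            rw [← hn']
            linarith
          rw [h4]
          exact h2.neg.sub ⟨n' * H.ip T H.h, by ring⟩
        rcases Int.even_mul.1 h3 with h4 | h4
        · exact h4
        · exact absurd h4 (by decide)
      obtain ⟨a', ha'⟩ := ha
      have hc : ∀ j, Even (c j) := by
        refine hi c ⟨(-n') • T + (-a') • H.h, ?_⟩
        rw [ha', hn'] at h
        have h1 : ∑ j, c j • g j = -((n' + n') • T) - ((a' + a') • H.h) := by
          have h2 : ∑ j, c j • g j = ((n' + n') • T + ((a' + a') • H.h + ∑ j, c j • g j)) -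
            (n' + n') • T - (a' + a') • H.h := by abel
          rw [h2, h]
          abel
        rw [h1]
        module
      choose c' hc' using hc
      refine ih n'.natAbs (by omega) n' a' c' rfl (by omega) ?_
      have h3 : (2 : ℤ) • (n' • T + (a' • H.h + ∑ j, c' j • g j)) = 0 := by
        rw [← h, smul_add, smul_add, Finset.smul_sum, ha', hn']
        congr 1
        · module
        · congr 1
          · module
          · refine Finset.sum_congr rfl fun j _ => ?_
            rw [hc' j]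
            module
      exact (smul_eq_zero.1 h3).resolve_left two_ne_zero
    · refine ⟨n, hodd, ?_⟩
      have h1 : n • T = (-a) • H.h + ∑ j, (-c j) • g j := by
        have h2 : n • T = (n • T + (a • H.h + ∑ j, c j • g j)) - (a • H.h + ∑ j, c j • g j) := by abel
        rw [h2, h, zero_sub, neg_add, neg_smul]
        congr 1
        rw [← Finset.sum_neg_distrib]
        exact Finset.sum_congr rfl fun j _ => (neg_smul _ _).symm
      rw [h1]
      refine Submodule.add_mem _ (Submodule.smul_mem _ _ (Submodule.subset_span (Set.mem_insert _ _)))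
        (Submodule.sum_mem _ fun j _ => Submodule.smul_mem _ _ (Submodule.subset_span
          (Set.mem_insert_of_mem _ ⟨j, rfl⟩)))

theorem odd_multiple (hH : H.IsCohomology) {ι : Type} [Fintype ι] {g : ι → Fin 23 → ℤ}
    (hg : ∀ j, H.IsHodge (g j)) (hgh : ∀ j, Even (H.ip (g j) H.h)) (hi : Ind2 g)
    (hc : H.rank ≤ Fintype.card ι + 1) {T : Fin 23 → ℤ} (hT : H.IsHodge T) :
    ∃ m : ℤ, Odd m ∧ m • T ∈ Submodule.span ℤ (insert H.h (Set.range g)) := by
  classical
  let f : Option (Option ι) → H.hodge := fun o =>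
    o.elim ⟨T, hT⟩ fun o => o.elim ⟨H.h, hH.h_hodge⟩ fun j => ⟨g j, hg j⟩
  have hdep : ¬ LinearIndependent ℤ f := by
    intro h
    have h4 := h.fintype_card_le_finrank
    rw [Fintype.card_option, Fintype.card_option, ← H.rank_eq] at h4
    omega
  rw [Fintype.not_linearIndependent_iff] at hdep
  obtain ⟨c, hc1, i, hi1⟩ := hdep
  have h1 : c none • T + (c (some none) • H.h + ∑ j, c (some (some j)) • g j) = 0 := by
    have h2 := congrArg (fun v : H.hodge => (v : Fin 23 → ℤ)) hc1
    simp only [Fintype.sum_option, f, Option.elim, Submodule.coe_add, Submodule.coe_smul,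
      Submodule.coe_sum, Submodule.coe_zero] at h2
    exact h2
  refine odd_of_rel hH hgh hi _ (c none) (c (some none)) (fun j => c (some (some j))) rfl ?_ h1
  intro h0
  rw [h0, zero_smul, zero_add] at h1
  obtain ⟨h2, h3⟩ := rel_trivial hH hgh hi h1
  rcases i with _ | _ | j
  · exact hi1 h0
  · exact hi1 h2
  · exact hi1 (h3 j)

/-- **No associated K3 surface.** -/
theorem not_k3 (hH : H.IsCohomology) (hE : H.AllEven) {ι : Type} [Fintype ι] {g : ι → Fin 23 → ℤ}
    (hg : ∀ j, ∃ P, H.IsPl P ∧ g j = H.h - P) (hi : Ind2 g) (hc : H.rank ≤ Fintype.card ι + 1) :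
    ¬ H.HasK3 := by
  rintro ⟨v, hv, -, h6, h4, -⟩
  choose P hP hgP using hg
  have hgH : ∀ j, H.IsHodge (g j) := fun j => by
    rw [hgP]
    exact hodge_hP hH (hP j)
  have hgh : ∀ j, H.ip (g j) H.h = 2 := fun j => by
    rw [hgP]
    exact hP_h hH (hP j)
  obtain ⟨m, hm, hmv⟩ := odd_multiple hH hgH (fun j => by rw [hgh]; exact even_two) hi hc hv
  apply h4
  refine four_dvd_of_odd hm ?_
  rw [← Pool.Agent.N801.CF.disc_smul]
  have hhg : ∀ j, H.ip H.h (g j) = 2 := fun j => (hH.comm _ _).trans (hgh j)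
  have hbh : ∀ w, bb H H.h w = 0 := by
    intro w
    unfold bb
    rw [hH.h_self]
    ring
  refine span_even hH ?_ ?_ hmv
  · rintro s (rfl | ⟨j, rfl⟩)
    · rw [H4.disc, hH.h_self]
      norm_num
    · have e : H.ip (g j) (g j) = 4 := by
        rw [hgP, hP_hP hH (hP j) (hP j), (hP j).2.2]
        norm_num
      rw [H4.disc, hhg, e]
      norm_num
  · rintro s (rfl | ⟨j, rfl⟩) t ht
    · rw [hbh]
      exact dvd_zero _
    · rcases ht with rfl | ⟨i, rfl⟩
      · rw [bb_comm hH, hbh]
        exact dvd_zero _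
      · unfold bb
        rw [hhg, hhg]
        have h1 : Even (H.ip (g j) (g i)) := by
          rw [hgP i]
          exact hE _ (hP i) _ (hgH j)
        obtain ⟨q, hq⟩ := h1
        exact ⟨3 * q - 2, by rw [hq]; ring⟩

/-- if there is an associated K3 surface then the planes do not generate a space of dimension `ρ - 1` -/
theorem bdW_of_k3 (hH : H.IsCohomology) (hE : H.AllEven) (hK : H.HasK3) {d : ℕ} (hd : H.rank ≤ d + 2) :
    BdW H d := by
  intro ι _ g _ _ h3 h4
  by_contra hcon
  exact not_k3 hH hE h4 h3 (by omega) hK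

end Pool.Agent.K9h76.CF.Spn
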